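import Pool.Agent.H663.SA.Scheme

/-!
# Closed subgroups of products of locally elliptic pro-`p` groups for different primes `p`
-/

set_option autoImplicit false

open Set Filter Topology

namespace Pool.Agent.H663.SA

/-- the powers `g ^ (p ^ k)` and their powers tend to `1` -/
def LocP (Γ : Type*) [Group Γ] [TopologicalSpace Γ] (p : ℕ) : Prop :=
  ∀ g : Γ, ∀ U ∈ 𝓝 (1 : Γ), ∃ k : ℕ, ∀ j : ℕ, g ^ (p ^ k * j) ∈ U

variable {Γ : ℕ → Type*} [∀ n, Group (Γ n)] [∀ n, TopologicalSpace (Γ n)] [∀ n, IsTopologicalGroup (Γ n)]

/-- exponents that isolate the coordinate `n` -/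
theorem exists_exp {p : ℕ → ℕ} (hp : ∀ n, (p n).Prime) (hinj : Function.Injective p) (n j : ℕ) :
    ∃ e : ℕ, (∃ c, e = p n ^ (j + 1) * c + 1) ∧ ∀ m < j, m ≠ n → ∃ c, e = p m ^ j * c := by
  classical
  set b := ∏ m ∈ (Finset.range j).erase n, p m ^ j with hb
  have hco : Nat.Coprime (p n ^ (j + 1)) b := by
    refine Nat.Coprime.prod_right fun m hm => ?_
    refine Nat.Coprime.pow _ _ ((Nat.coprime_primes (hp n) (hp m)).2 fun h => ?_)
    exact (Finset.mem_erase.1 hm).1 (hinj h).symm
  obtain ⟨e, he1, he2⟩ := Nat.chineseRemainder hco 1 0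
  have hlt : 1 < p n ^ (j + 1) := Nat.one_lt_pow (by omega) (hp n).one_lt
  refine ⟨e, ?_, fun m hm hmn => ?_⟩
  · have h1 : e % p n ^ (j + 1) = 1 := by
      have := he1
      rw [Nat.ModEq, Nat.mod_eq_of_lt hlt] at this
      exact this
    refine ⟨e / p n ^ (j + 1), ?_⟩
    have := Nat.div_add_mod e (p n ^ (j + 1))
    omega
  · have h1 : b ∣ e := (Nat.modEq_zero_iff_dvd).1 he2
    have h2 : p m ^ j ∣ b := Finset.dvd_prod_of_mem _ (Finset.mem_erase.2 ⟨hmn, Finset.mem_range.2 hm⟩)
    obtain ⟨c, hc⟩ := h2.trans h1
    exact ⟨c, hc⟩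

theorem allProd_of_locP {p : ℕ → ℕ} (hp : ∀ n, (p n).Prime) (hinj : Function.Injective p)
    (h : ∀ n, LocP (Γ n) (p n)) : AllProd Γ := by
  intro H hH x
  constructor
  · intro hx n
    choose e he1 he2 using exists_exp hp hinj n
    have hlim : Tendsto (fun j => x ^ e j) atTop (𝓝 (Pi.mulSingle n (x n))) := by
      rw [tendsto_pi_nhds]
      intro m
      by_cases hm : m = n
      · subst hm
        rw [Pi.mulSingle_eq_same]
        have h1 : Tendsto (fun j => x m ^ (e j - 1)) atTop (𝓝 1) := by
          rw [tendsto_def]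
          intro U hU
          obtain ⟨k, hk⟩ := h m (x m) U hU
          filter_upwards [eventually_ge_atTop k] with j hj
          obtain ⟨c, hc⟩ := he1 j
          have h2 : e j - 1 = p m ^ k * (p m ^ (j + 1 - k) * c) := by
            rw [hc, Nat.add_sub_cancel, ← mul_assoc, ← pow_add, show k + (j + 1 - k) = j + 1 by omega]
          change x m ^ (e j - 1) ∈ U
          rw [h2]
          exact hk _
        have h2 : Tendsto (fun j => x m ^ (e j - 1) * x m) atTop (𝓝 (1 * x m)) := h1.mul_const _
        rw [one_mul] at h2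
        refine h2.congr fun j => ?_
        rw [← pow_succ]
        congr 1
        obtain ⟨c, hc⟩ := he1 j
        omega
      · rw [Pi.mulSingle_eq_of_ne hm]
        rw [tendsto_def]
        intro U hU
        obtain ⟨k, hk⟩ := h m (x m) U hU
        filter_upwards [eventually_ge_atTop k, eventually_gt_atTop m] with j hj hj'
        obtain ⟨c, hc⟩ := he2 j m hj' hm
        have h2 : e j = p m ^ k * (p m ^ (j - k) * c) := by
          rw [hc, ← mul_assoc, ← pow_add, show k + (j - k) = j by omega]
        change x m ^ e j ∈ U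
        rw [h2]
        exact hk _
    exact hH.mem_of_tendsto hlim (Eventually.of_forall fun j => H.pow_mem hx _)
  · intro hx
    have h1 : ∀ N : ℕ, (fun m => if m < N then x m else 1) ∈ H := by
      intro N
      induction N with
      | zero =>
        have : (fun m => if m < 0 then x m else 1) = (1 : ∀ n, Γ n) := by
          funext m; simp
        rw [this]
        exact H.one_mem
      | succ N ih =>
        have : (fun m => if m < N + 1 then x m else 1) =
            (fun m => if m < N then x m else 1) * Pi.mulSingle N (x N) := by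
          funext m
          rcases lt_trichotomy m N with hm | hm | hm
          · simp [hm, Nat.lt_succ_of_lt hm, Pi.mulSingle_eq_of_ne hm.ne]
          · subst hm; simp
          · have h3 : ¬ m < N + 1 := by omega
            simp [h3, not_lt.2 hm.le, Pi.mulSingle_eq_of_ne hm.ne']
        rw [this]
        exact H.mul_mem ih (hx N)
    have hlim : Tendsto (fun N : ℕ => (fun m => if m < N then x m else 1 : ∀ n, Γ n)) atTop (𝓝 x) := by
      rw [tendsto_pi_nhds]
      intro m
      refine tendsto_const_nhds.congr' ?_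
      filter_upwards [eventually_gt_atTop m] with N hN
      simp [hN]
    exact hH.mem_of_tendsto hlim (Eventually.of_forall h1)

end Pool.Agent.H663.SA
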