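import Mathlib

/-!
# Strongly admissible ideal schemes

Definitions of the problem MP_842576_lc.
-/

set_option autoImplicit false

namespace Pool.Agent.H663.SA

open Filter Topology Set
open scoped Pointwise

variable {G : Type*} [Group G] [TopologicalSpace G]

/-- A strongly admissible ideal scheme on `G`: `I H` is the ideal `𝓘_H` (a family of subsets of `G` contained in `H`) for
each closed subgroup `H`. (The values at subgroups that are not closed are irrelevant.) -/
structure StronglyAdmissible (I : Subgroup G → Set (Set G)) : Prop where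
  /-- the members are subsets of `H` -/
  sub : ∀ H : Subgroup G, IsClosed (H : Set G) → ∀ s ∈ I H, s ⊆ (H : Set G)
  /-- the empty set is a member -/
  empty : ∀ H : Subgroup G, IsClosed (H : Set G) → ∅ ∈ I H
  /-- closed under subsets -/
  mono : ∀ H : Subgroup G, IsClosed (H : Set G) → ∀ s ∈ I H, ∀ t ⊆ s, t ∈ I H
  /-- (1) closed under countable unions -/
  union : ∀ H : Subgroup G, IsClosed (H : Set G) → ∀ f : ℕ → Set G, (∀ n, f n ∈ I H) → (⋃ n, f n) ∈ I H
  /-- (2) invariance under left translations by elements of `H` -/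
  left : ∀ H : Subgroup G, IsClosed (H : Set G) → ∀ h ∈ H, ∀ s ∈ I H, (fun x => h * x) '' s ∈ I H
  /-- (2) invariance under right translations by elements of `H` -/
  right : ∀ H : Subgroup G, IsClosed (H : Set G) → ∀ h ∈ H, ∀ s ∈ I H, (fun x => x * h) '' s ∈ I H
  /-- (2) `g⁻¹ 𝓘_H g = 𝓘_{g⁻¹ H g}` -/
  conj : ∀ H : Subgroup G, IsClosed (H : Set G) → ∀ (g : G) (s : Set G),
    s ∈ I H ↔ (fun x => g⁻¹ * x * g) '' s ∈ I (H.map (MulAut.conj g⁻¹).toMonoidHom)
  /-- (3) transitivity -/
  trans : ∀ K₁ K₂ K₃ H : Subgroup G, IsClosed (K₁ : Set G) → IsClosed (K₂ : Set G) → IsClosed (K₃ : Set G) →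
    IsClosed (H : Set G) → K₃ ≤ K₂ → K₂ ≤ K₁ → H ≤ K₁ →
    ((((H ⊓ K₂ : Subgroup G) : Set G) * (K₃ : Set G) ∉ I K₂ ∧ (H : Set G) * (K₂ : Set G) ∉ I K₁) ↔
      (H : Set G) * (K₃ : Set G) ∉ I K₁)
  /-- (4) dichotomy -/
  dich : ∀ K H : Subgroup G, IsClosed (K : Set G) → IsClosed (H : Set G) → K ≤ H →
    ((K : Set G) ∈ I H ↔ ¬ Countable (H ⧸ K.subgroupOf H))

/-- `s` is meager in the subgroup `H` (with the subspace topology). -/
def MeagerIn (H : Subgroup G) (s : Set G) : Prop := IsMeagre ((Subtype.val : H → G) ⁻¹' s)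

/-- The assertion of Q1 for the group `G`: non-meager independence is the maximum strongly admissible geometry on `G`. -/
def Q1 (G : Type*) [Group G] [TopologicalSpace G] : Prop :=
  ∀ I : Subgroup G → Set (Set G), StronglyAdmissible I → ∀ H K₁ K₂ : Subgroup G, IsClosed (H : Set G) →
    IsClosed (K₁ : Set G) → IsClosed (K₂ : Set G) → K₁ ≤ H → K₂ ≤ H → (K₁ : Set G) * (K₂ : Set G) ∈ I H →
    MeagerIn H ((K₁ : Set G) * (K₂ : Set G))

end Pool.Agent.H663.SA
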