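import Pool.Agent.H663.SA.Tri
import Pool.Agent.H663.SA.Coprime

/-!
# Two closed subgroups with a dense open product whose complement is not null

In the group `TG A D` with `D` the set of odd numbers let `L` be the stabilizer of the sequence `0`. The subgroup `K`
consists of the elements which preserve almost all *states* `st k`. The product `K L` is the set of the `g` such that
`st k (g 0)` is false for all large `k`. It is dense and contains an open dense set, but its complement is not null.
-/

set_option autoImplicit false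
set_option linter.unusedSectionVars false
set_option linter.style.haveILetI false

open Set Filter Topology MeasureTheory
open scoped Pointwise

namespace Pool.Agent.H663.SA

variable {A : ℕ → Type} [∀ n, AddCommGroup (A n)]

section LocP

variable {D : Set ℕ}

theorem pow_fix {p : ℕ} (hA : ∀ n, ∃ e : ℕ, ∀ a : A n, (p ^ e) • a = 0) (g : TG A D) (m : ℕ) :
    ∃ k : ℕ, ∀ n < m, ∀ w, (g ^ (p ^ k)).act w n = w n := by
  induction m with
  | zero => exact ⟨0, fun n hn => absurd hn (Nat.not_lt_zero n)⟩
  | succ m ih =>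
    obtain ⟨k, hk⟩ := ih
    obtain ⟨e, he⟩ := hA m
    set h := g ^ (p ^ k) with hh
    have h1 : ∀ j : ℕ, ∀ w, Agree m ((h ^ j).act w) w := by
      intro j
      induction j with
      | zero => intro w i _; rw [pow_zero]; rfl
      | succ j ihj =>
        intro w i hi
        rw [pow_succ', TG.act_mul, hk i hi, ihj w i hi]
    have h2 : ∀ j : ℕ, ∀ w, (h ^ j).act w m = w m + j • (h.act w m - w m) := by
      intro j
      induction j with
      | zero => intro w; rw [pow_zero, zero_smul, add_zero]; rfl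
      | succ j ihj =>
        intro w
        have h3 := h.tri m _ _ (h1 j w)
        rw [pow_succ', TG.act_mul]
        have h4 : h.act ((h ^ j).act w) m = (h.act w m - w m) + (h ^ j).act w m := by rw [← h3]; abel
        rw [h4, ihj, succ_nsmul]
        abel
    refine ⟨k + e, fun n hn w => ?_⟩
    rw [pow_add, pow_mul, ← hh]
    rcases Nat.lt_succ_iff_lt_or_eq.1 hn with hn | hn
    · exact h1 _ w n hn
    · subst hn
      rw [h2, he, add_zero]

theorem locP_TG {p : ℕ} (hA : ∀ n, ∃ e : ℕ, ∀ a : A n, (p ^ e) • a = 0) : LocP (TG A D) p := by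
  intro g s hs
  obtain ⟨m, hm⟩ := mem_nhds_iff'.1 hs
  obtain ⟨N, hN⟩ := exists_mem_U g
  obtain ⟨k, hk⟩ := pow_fix hA g (max m N)
  have h1 : g ^ (p ^ k) ∈ V A D (max m N) := by
    intro n hn w
    by_cases hn' : n < max m N
    · exact hk n hn' w
    · exact (U A D N).pow_mem hN _ n (by omega) (hn.resolve_right hn') w
  refine ⟨k, fun j => ?_⟩
  have h2 := hm _ (V_anti (le_max_left m N) ((V A D (max m N)).pow_mem h1 j))
  rw [one_mul, ← pow_mul] at h2
  exact h2

end LocP

/-- the odd numbers -/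
def Od : Set ℕ := {n | n % 2 = 1}

variable (e : ∀ n, A n)

open Classical in
/-- the states -/
noncomputable def st : ℕ → (∀ i, A i) → Prop
  | 0, _ => True
  | k + 1, w => w (2 * k + 1) ≠ if st k w ∧ w (2 * k) ≠ 0 then e (2 * k + 1) else 0

open Classical in
/-- the value with which the coordinate `n` is compared (`n` odd) -/
noncomputable def TT (n : ℕ) (w : ∀ i, A i) : A n := if st e (n / 2) w ∧ w (2 * (n / 2)) ≠ 0 then e n else 0

theorem st_succ (k : ℕ) (w : ∀ i, A i) : st e (k + 1) w ↔ w (2 * k + 1) ≠ TT e (2 * k + 1) w := by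
  have h : (2 * k + 1) / 2 = k := by omega
  rw [TT, h, st]

theorem st_congr (k : ℕ) {w w' : ∀ i, A i} (h : Agree (2 * k) w w') : st e k w ↔ st e k w' := by
  induction k with
  | zero => simp [st]
  | succ k ih =>
    rw [st_succ, st_succ, h (2 * k + 1) (by omega)]
    have h1 : TT e (2 * k + 1) w = TT e (2 * k + 1) w' := by
      have h2 : (2 * k + 1) / 2 = k := by omega
      unfold TT
      rw [h2, ih (h.mono (by omega)), h (2 * k) (by omega)]
    rw [h1]

theorem TT_congr (n : ℕ) (hn : n ∈ Od) {w w' : ∀ i, A i} (h : Agree n w w') : TT e n w = TT e n w' := by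
  have hn' : n % 2 = 1 := hn
  unfold TT
  rw [st_congr e (n / 2) (h.mono (by omega)), h (2 * (n / 2)) (by omega)]

/-- if the odd coordinates vanish and the state is false then it stays false -/
theorem st_stay {k : ℕ} {w : ∀ i, A i} (h0 : ¬ st e k w) (h : ∀ j, k ≤ j → w (2 * j + 1) = 0) :
    ∀ j, k ≤ j → ¬ st e j w := by
  intro j hj
  induction j, hj using Nat.le_induction with
  | base => exact h0
  | succ j hj ih =>
    rw [st_succ, h j hj, not_not]
    have h2 : (2 * j + 1) / 2 = j := by omega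
    unfold TT
    rw [h2, if_neg (fun hh => ih hh.1)]

theorem not_st_zero (k : ℕ) (hk : 1 ≤ k) : ¬ st e k (0 : ∀ i, A i) := by
  refine st_stay e (k := 1) ?_ (fun j _ => rfl) k hk
  rw [show (1 : ℕ) = 0 + 1 from rfl, st_succ, not_not]
  unfold TT
  simp

variable {e} (he : ∀ n, e n ≠ 0)

include he in
theorem st_down {h : TG A Od} {k : ℕ} (hfix : ∀ w, h.act w (2 * k + 1) = w (2 * k + 1))
    (hinv : ∀ w, st e (k + 1) (h.act w) ↔ st e (k + 1) w) (w : ∀ i, A i) (hw : st e k w) : st e k (h.act w) := by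
  by_contra hcon
  let w' : ∀ i, A i := fun i => if i < 2 * k then w i else if i = 2 * k then e i else 0
  have h1 : Agree (2 * k) w' w := fun i hi => if_pos hi
  have h2 : st e k w' := (st_congr e k h1).2 hw
  have h3 : ¬ st e k (h.act w') := fun h4 => hcon ((st_congr e k (h.agree h1)).1 h4)
  have h4 : w' (2 * k) = e (2 * k) := by simp [w']
  have h5 : w' (2 * k + 1) = 0 := by
    have : ¬ (2 * k + 1 < 2 * k) := by omega
    have h6 : ¬ (2 * k + 1 = 2 * k) := by omega
    simp only [w', if_neg this, if_neg h6]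
  have h6 := hinv w'
  have h7 : (2 * k + 1) / 2 = k := by omega
  rw [st_succ, st_succ, hfix, h5] at h6
  have h8 : TT e (2 * k + 1) w' = e (2 * k + 1) := by
    unfold TT
    rw [h7, if_pos ⟨h2, by rw [h4]; exact he _⟩]
  have h9 : TT e (2 * k + 1) (h.act w') = 0 := by
    unfold TT
    rw [h7, if_neg fun hh => h3 hh.1]
  rw [h8, h9] at h6
  exact (h6.2 (he _).symm) rfl

variable (e) in
/-- the subgroup `K` -/
def KK : Subgroup (TG A Od) where
  carrier := {g | ∃ N, ∀ k, N ≤ k → ∀ w, st e k (g.act w) ↔ st e k w}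
  one_mem' := ⟨0, fun k _ w => Iff.rfl⟩
  mul_mem' := by
    rintro g h ⟨N, hN⟩ ⟨M, hM⟩
    refine ⟨max N M, fun k hk w => ?_⟩
    rw [TG.act_mul, hN k (le_trans (le_max_left _ _) hk), hM k (le_trans (le_max_right _ _) hk)]
  inv_mem' := by
    rintro g ⟨N, hN⟩
    refine ⟨N, fun k hk w => ?_⟩
    have := hN k hk ((g⁻¹).act w)
    rw [TG.act_act_inv] at this
    exact this.symm

/-- the subgroup `L` -/
def LL (A : ℕ → Type) [∀ n, AddCommGroup (A n)] : Subgroup (TG A Od) where
  carrier := {g | g.act 0 = 0}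
  one_mem' := rfl
  mul_mem' := fun {g h} hg hh => by
    change (g * h).act 0 = 0
    rw [TG.act_mul, show h.act 0 = 0 from hh, show g.act 0 = 0 from hg]
  inv_mem' := fun {g} hg => by
    have h1 : g.act 0 = 0 := hg
    have := g.act_inv_act 0
    rw [h1] at this
    exact this

theorem mem_KK {g : TG A Od} : g ∈ KK e ↔ ∃ N, ∀ k, N ≤ k → ∀ w, st e k (g.act w) ↔ st e k w := Iff.rfl
theorem mem_LL {g : TG A Od} : g ∈ LL A ↔ g.act 0 = 0 := Iff.rfl

theorem odd_mem (k : ℕ) : 2 * k + 1 ∈ Od := by
  change (2 * k + 1) % 2 = 1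
  omega

include he in
/-- stabilization -/
theorem KK_stable {g : TG A Od} (hg : g ∈ KK e) {N : ℕ} (hN : g ∈ U A Od (2 * N + 1)) (k : ℕ) (hk : N ≤ k)
    (w : ∀ i, A i) : st e k (g.act w) ↔ st e k w := by
  obtain ⟨M, hM⟩ := hg
  have key : ∀ j, N ≤ j → (∀ w, st e (j + 1) (g.act w) ↔ st e (j + 1) w) → ∀ w, st e j (g.act w) ↔ st e j w := by
    intro j hj h w
    have hfix : ∀ w, g.act w (2 * j + 1) = w (2 * j + 1) := fun w => hN _ (by omega) (odd_mem j) w
    constructor
    · intro h1
      have hN' := (U A Od (2 * N + 1)).inv_mem hN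
      have h2 := st_down he (h := g⁻¹) (k := j) (fun w => hN' _ (by omega) (odd_mem j) w) (fun w => by
        have := h ((g⁻¹).act w)
        rw [TG.act_act_inv] at this
        exact this.symm) (g.act w) h1
      rw [TG.act_inv_act] at h2
      exact h2
    · exact st_down he hfix h w
  have h2 : ∀ d j, N ≤ j → j + d = max M (max N k) → ∀ w, st e j (g.act w) ↔ st e j w := by
    intro d
    induction d with
    | zero => intro j _ hj w; exact hM j (by omega) w
    | succ d ih => intro j hj hjd; exact key j hj (ih (j + 1) (by omega) (by omega))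
  exact h2 (max M (max N k) - k) k hk (by omega) w

include he in
theorem KK_closed : IsClosed (KK e : Set (TG A Od)) := by
  rw [← isOpen_compl_iff, isOpen_iff']
  intro g hg
  by_contra hcon
  push Not at hcon
  apply hg
  obtain ⟨N, hN⟩ := exists_mem_U g
  have hN' : g ∈ U A Od (2 * N + 1) := U_mono (by omega) hN
  refine ⟨N, fun k hk w => ?_⟩
  obtain ⟨v, hv, hgv⟩ := hcon (2 * k)
  have hgv' : g * v ∈ KK e := by simpa using hgv
  have h1 := KK_stable he hgv' ((U A Od (2 * N + 1)).mul_mem hN' (V_le_U _ _ hv)) k hk w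
  rw [TG.act_mul] at h1
  rw [← h1]
  exact st_congr e k (g.agree (V_agree hv w)).symm

theorem LL_closed : IsClosed (LL A : Set (TG A Od)) := by
  rw [← isOpen_compl_iff, isOpen_iff']
  intro g hg
  by_contra hcon
  push Not at hcon
  apply hg
  change g.act 0 = 0
  funext n
  obtain ⟨v, hv, hgv⟩ := hcon (n + 1)
  have hgv1 : g * v ∈ LL A := by simpa using hgv
  have hgv' : (g * v).act 0 = 0 := hgv1
  rw [TG.act_mul] at hgv'
  rw [← g.agree (V_agree hv 0) n (Nat.lt_succ_self n), hgv']

/-- the elements that move `0` to a sequence with almost all states false -/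
def OO (e : ∀ n, A n) : Set (TG A Od) := {g | ∃ N, ∀ k, N ≤ k → ¬ st e k (g.act 0)}

theorem mul_subset_OO : (KK e : Set (TG A Od)) * (LL A : Set (TG A Od)) ⊆ OO e := by
  rintro _ ⟨g, ⟨N, hN⟩, h, hh, rfl⟩
  refine ⟨max N 1, fun k hk => ?_⟩
  have hh' : h.act 0 = 0 := hh
  change ¬ st e k ((g * h).act 0)
  rw [TG.act_mul, hh', hN k (by omega)]
  exact not_st_zero e k (by omega)

theorem OO_subset_mul : OO e ⊆ (KK e : Set (TG A Od)) * (LL A : Set (TG A Od)) := by
  classical
  rintro g ⟨k₁, hk₁⟩
  obtain ⟨M, hM⟩ := exists_mem_U g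
  -- `N = N' + 1`
  obtain ⟨N', hN'⟩ : ∃ N', N' = max k₁ M := ⟨_, rfl⟩
  let n₀ := 2 * N' + 1
  let f : (∀ i, A i) → (∀ i, A i) := fun w n =>
    if n < n₀ then g.act w n else if n = n₀ then w n + TT e n (g.act w) - TT e n w else
      if n ∈ Od then w n else w n + (if st e (n / 2) w then 0 else g.act 0 n)
  have f1 : ∀ w n, n < n₀ → f w n = g.act w n := fun w n hn => if_pos hn
  have f2 : ∀ w n, n = n₀ → f w n = w n + TT e n (g.act w) - TT e n w := fun w n hn => by
    have : ¬ n < n₀ := by omega
    simp only [f, if_neg this, if_pos hn]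
  have f3 : ∀ w n, n₀ < n → n ∈ Od → f w n = w n := fun w n hn hD => by
    have h1 : ¬ n < n₀ := by omega
    have h2 : ¬ n = n₀ := by omega
    simp only [f, if_neg h1, if_neg h2, if_pos hD]
  have f4 : ∀ w n, n₀ < n → n ∉ Od → f w n = w n + (if st e (n / 2) w then 0 else g.act 0 n) := fun w n hn hD => by
    have h1 : ¬ n < n₀ := by omega
    have h2 : ¬ n = n₀ := by omega
    simp only [f, if_neg h1, if_neg h2, if_neg hD]
  have hft : IsTri f := by
    intro n w w' h
    rcases lt_trichotomy n n₀ with hn | hn | hn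
    · rw [f1 w n hn, f1 w' n hn]
      exact g.tri n w w' h
    · have hD : n ∈ Od := by rw [hn]; exact odd_mem N'
      rw [f2 w n hn, f2 w' n hn, TT_congr e n hD (g.agree h), TT_congr e n hD h]
      abel
    · by_cases hD : n ∈ Od
      · rw [f3 w n hn hD, f3 w' n hn hD, sub_self, sub_self]
      · have hD' : ¬ n % 2 = 1 := hD
        have h1 : st e (n / 2) w ↔ st e (n / 2) w' := st_congr e _ (h.mono (by omega))
        rw [f4 w n hn hD, f4 w' n hn hD]
        simp only [h1]
        abel
  have hfN : ∀ n, n₀ + 1 ≤ n → n ∈ Od → ∀ w, f w n = w n := fun n hn hD w => f3 w n (by omega) hD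
  set x : TG A Od := TG.mk f hft (n₀ + 1) hfN with hx
  have hxf : ∀ w, x.act w = f w := fun w => rfl
  -- `x` preserves the states
  have hst : ∀ k, N' + 1 ≤ k → ∀ w, st e k (f w) ↔ st e k w := by
    intro k hk
    induction k, hk using Nat.le_induction with
    | base =>
      intro w
      have h1 : Agree n₀ (f w) (g.act w) := fun i hi => f1 w i hi
      rw [st_succ, st_succ, TT_congr e _ (odd_mem N') h1, f2 w _ rfl]
      constructor
      · intro h2 h3
        apply h2
        rw [h3]
        abel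
      · intro h2 h3
        apply h2
        have h4 : w (2 * N' + 1) = (w (2 * N' + 1) + TT e (2 * N' + 1) (g.act w) - TT e (2 * N' + 1) w) -
          TT e (2 * N' + 1) (g.act w) + TT e (2 * N' + 1) w := by abel
        rw [h4, h3]
        abel
    | succ k hk ih =>
      intro w
      rw [st_succ, st_succ, f3 w _ (by omega) (odd_mem k)]
      have h2 : (2 * k + 1) / 2 = k := by omega
      have h1 : TT e (2 * k + 1) (f w) = TT e (2 * k + 1) w := by
        unfold TT
        rw [h2]
        by_cases hs : st e k w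
        · have h3 : f w (2 * k) = w (2 * k) := by
            have hD : 2 * k ∉ Od := fun h => by
              have h' : (2 * k) % 2 = 1 := h
              omega
            rw [f4 w (2 * k) (by omega) hD, show 2 * k / 2 = k by omega, if_pos hs, add_zero]
          rw [ih w, h3]
        · rw [if_neg fun h => hs ((ih w).1 h.1), if_neg fun h => hs h.1]
      rw [h1]
  -- `x` and `g` agree at `0`
  have h0 : f 0 = g.act 0 := by
    funext n
    rcases lt_trichotomy n n₀ with hn | hn | hn
    · exact f1 0 n hn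
    · subst hn
      rw [f2 0 _ rfl]
      have h1 : TT e n₀ (0 : ∀ i, A i) = 0 := by
        unfold TT
        simp
      have h2 : ¬ st e (N' + 1) (g.act 0) := hk₁ _ (by omega)
      rw [st_succ, not_not] at h2
      rw [h1, h2]
      simp only [Pi.zero_apply]
      abel
    · by_cases hD : n ∈ Od
      · rw [f3 0 n hn hD, hM n (by omega) hD]
      · rw [f4 0 n hn hD, if_neg (not_st_zero e _ (by omega))]
        simp
  have hxK : x ∈ KK e := ⟨N' + 1, fun k hk w => hst k hk w⟩
  refine ⟨x, hxK, x⁻¹ * g, ?_, by simp⟩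
  change (x⁻¹ * g).act 0 = 0
  rw [TG.act_mul, ← h0, ← hxf, TG.act_inv_act]

theorem mul_eq_OO : (KK e : Set (TG A Od)) * (LL A : Set (TG A Od)) = OO e :=
  Subset.antisymm mul_subset_OO OO_subset_mul

theorem OO_open : IsOpen (OO e) := by
  rw [isOpen_iff']
  rintro g ⟨N, hN⟩
  obtain ⟨M, hM⟩ := exists_mem_U g
  obtain ⟨k, hk⟩ : ∃ k, k = max N M := ⟨_, rfl⟩
  refine ⟨2 * k, fun v hv => ⟨k, ?_⟩⟩
  rw [TG.act_mul]
  have h1 : ¬ st e k (g.act (v.act 0)) := by
    rw [st_congr e k (g.agree (V_agree hv 0))]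
    exact hN k (by omega)
  refine st_stay e h1 fun j hj => ?_
  rw [hM _ (by omega) (odd_mem j), hv _ (Or.inl (odd_mem j))]
  rfl

/-- translations -/
noncomputable def transl (n : ℕ) (hn : n ∉ Od) (a : A n) : TG A Od :=
  TG.mk (fun w => w + Pi.single n a) (fun m w w' _ => by simp) 0 (fun m _ hm w => by
    have : m ≠ n := fun h => hn (h ▸ hm)
    simp [Pi.single_eq_of_ne this])

theorem transl_act (n : ℕ) (hn : n ∉ Od) (a : A n) (w : ∀ i, A i) : (transl n hn a).act w = w + Pi.single n a := rfl

theorem transl_mem (n : ℕ) (hn : n ∉ Od) (a : A n) : transl n hn a ∈ V A Od n := by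
  intro m hm w
  have : m ≠ n := by
    rintro rfl
    rcases hm with h | h
    · exact hn h
    · omega
  rw [transl_act]
  simp [Pi.single_eq_of_ne this]

theorem even_not_mem (k : ℕ) : 2 * k ∉ Od := fun h => by
  have h' : (2 * k) % 2 = 1 := h
  omega

theorem OO_dense : Dense (OO e) := by
  intro g
  rw [mem_closure_iff_nhds]
  intro s hs
  obtain ⟨m, hm⟩ := mem_nhds_iff'.1 hs
  obtain ⟨M, hM⟩ := exists_mem_U g
  obtain ⟨k, hk⟩ : ∃ k, k = max m M := ⟨_, rfl⟩
  set v := transl (2 * k) (even_not_mem k) (-(g.act 0 (2 * k))) with hv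
  have hvV : v ∈ V A Od (2 * k) := transl_mem _ _ _
  refine ⟨g * v, hm v (V_anti (by omega) hvV), k + 1, ?_⟩
  rw [TG.act_mul]
  have h1 : g.act (v.act 0) (2 * k) = 0 := by
    have h2 := g.tri (2 * k) _ _ (V_agree hvV 0)
    have h3 : v.act 0 (2 * k) = -(g.act 0 (2 * k)) := by
      rw [hv, transl_act]
      simp
    have h4 : g.act (v.act 0) (2 * k) = (g.act 0 (2 * k) - (0 : ∀ i, A i) (2 * k)) + v.act 0 (2 * k) := by
      rw [← h2]; abel
    rw [h4, h3]
    simp
  have hodd : ∀ j, k ≤ j → g.act (v.act 0) (2 * j + 1) = 0 := by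
    intro j hj
    rw [hM _ (by omega) (odd_mem j), hvV _ (Or.inl (odd_mem j))]
    rfl
  refine st_stay e ?_ fun j hj => hodd j (by omega)
  rw [st_succ, hodd k le_rfl, not_not]
  unfold TT
  rw [show (2 * k + 1) / 2 = k by omega, if_neg fun h => h.2 h1]

end Pool.Agent.H663.SA
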