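import Mathlib

/-!
# Haar null sets of closed subgroups

`Γ` is a second countable locally compact group. For a subgroup `H` and a set `S` of `Γ` we write `Nul H S` if the part of
`S` in `H` is null for the Haar measures of `H`. We prove the Fubini property for pairs of closed subgroups
`K₂ ≤ K₁` and the two transitivity properties of products of closed subgroups (not null; conull).
-/

set_option autoImplicit false
set_option linter.unusedSectionVars false
set_option linter.style.haveILetI false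

open MeasureTheory Measure Set Filter Topology
open scoped Pointwise

namespace Pool.Agent.H663.SA

variable {Γ : Type*} [Group Γ] [TopologicalSpace Γ] [IsTopologicalGroup Γ] [MeasurableSpace Γ] [BorelSpace Γ]

/-- `S ∩ H` is a null set of the group `H`: it is null for all Haar measures of `H`. -/
def Nul (H : Subgroup Γ) (S : Set Γ) : Prop :=
  ∀ μ : Measure H, μ.IsHaarMeasure → μ ((Subtype.val : H → Γ) ⁻¹' S) = 0

theorem Nul.mono {H : Subgroup Γ} {S T : Set Γ} (h : Nul H T) (hST : ∀ x ∈ H, x ∈ S → x ∈ T) : Nul H S :=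
  fun μ hμ => measure_mono_null (fun x hx => hST x x.2 hx) (h μ hμ)

theorem Nul.iUnion {H : Subgroup Γ} {S : ℕ → Set Γ} (h : ∀ n, Nul H (S n)) : Nul H (⋃ n, S n) := by
  intro μ hμ
  rw [preimage_iUnion]
  exact measure_iUnion_null fun n => h n μ hμ

theorem Nul.union {H : Subgroup Γ} {S T : Set Γ} (h : Nul H S) (h' : Nul H T) : Nul H (S ∪ T) := by
  intro μ hμ
  rw [preimage_union]
  exact measure_union_null (h μ hμ) (h' μ hμ)

theorem Nul.empty (H : Subgroup Γ) : Nul H ∅ := fun μ _ => by simp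

/-- there is an element outside a null set -/
theorem exists_mem_diff {H : Subgroup Γ} {S T : Set Γ} (h : ¬ Nul H S) (h' : Nul H T) : ∃ x ∈ H, x ∈ S ∧ x ∉ T := by
  by_contra hcon
  push Not at hcon
  exact h (h'.mono hcon)

theorem Nul.smul {H : Subgroup Γ} {S : Set Γ} (h : Nul H S) {g : Γ} (hg : g ∈ H) :
    Nul H ((fun x => g * x) '' S) := by
  intro μ hμ
  have h1 : (Subtype.val : H → Γ) ⁻¹' ((fun x => g * x) '' S) =
      (fun x : H => (⟨g, hg⟩ : H)⁻¹ * x) ⁻¹' ((Subtype.val : H → Γ) ⁻¹' S) := by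
    ext x
    constructor
    · rintro ⟨y, hy, hyx⟩
      have : g⁻¹ * (x : Γ) ∈ S := by
        rw [← hyx]
        simpa using hy
      exact this
    · intro hx
      refine ⟨g⁻¹ * x, hx, ?_⟩
      simp
  rw [h1, measure_preimage_mul]
  exact h μ hμ

section LC

variable [LocallyCompactSpace Γ] [SecondCountableTopology Γ] [T2Space Γ]

theorem lc_of_closed {H : Subgroup Γ} (hH : IsClosed (H : Set Γ)) : LocallyCompactSpace H :=
  hH.isClosedEmbedding_subtypeVal.locallyCompactSpace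

omit [IsTopologicalGroup Γ] [MeasurableSpace Γ] [BorelSpace Γ] [LocallyCompactSpace Γ] [T2Space Γ] in
theorem sc_sub (H : Subgroup Γ) : SecondCountableTopology H :=
  TopologicalSpace.Subtype.secondCountableTopology (H : Set Γ)

theorem exists_haar {H : Subgroup Γ} (hH : IsClosed (H : Set Γ)) : ∃ μ : Measure H, μ.IsHaarMeasure := by
  haveI := lc_of_closed hH
  exact ⟨Measure.haar, inferInstance⟩

theorem sigmaFinite_of_haar {H : Subgroup Γ} (hH : IsClosed (H : Set Γ)) (μ : Measure H) (hμ : μ.IsHaarMeasure) :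
    SigmaFinite μ := by
  haveI := lc_of_closed hH
  haveI := sc_sub H
  infer_instance

theorem nul_iff {H : Subgroup Γ} (hH : IsClosed (H : Set Γ)) (μ : Measure H) (hμ : μ.IsHaarMeasure) (S : Set Γ) :
    Nul H S ↔ μ ((Subtype.val : H → Γ) ⁻¹' S) = 0 := by
  refine ⟨fun h => h μ hμ, fun h ν hν => ?_⟩
  haveI := lc_of_closed hH
  haveI := sc_sub H
  have h0 : μ ≠ 0 := by
    intro h0
    have := IsOpen.measure_ne_zero μ isOpen_univ (univ_nonempty (α := H))
    simp [h0] at this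
  exact absolutelyContinuous_of_isMulLeftInvariant ν μ h0 h

theorem not_nul_self {H : Subgroup Γ} (hH : IsClosed (H : Set Γ)) {S : Set Γ} (hS : (H : Set Γ) ⊆ S) : ¬ Nul H S := by
  obtain ⟨μ, hμ⟩ := exists_haar hH
  rw [nul_iff hH μ hμ]
  have h1 : (Subtype.val : H → Γ) ⁻¹' S = univ := by
    ext x
    simpa using hS x.2
  rw [h1]
  exact IsOpen.measure_ne_zero μ isOpen_univ univ_nonempty

theorem Nul.mul_right {H : Subgroup Γ} (hH : IsClosed (H : Set Γ)) {S : Set Γ} (h : Nul H S) {g : Γ} (hg : g ∈ H) :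
    Nul H ((fun x => x * g) '' S) := by
  intro μ hμ
  haveI := lc_of_closed hH
  haveI := sc_sub H
  have h1 : (Subtype.val : H → Γ) ⁻¹' ((fun x => x * g) '' S) =
      (fun x : H => x * (⟨g, hg⟩ : H)⁻¹) ⁻¹' ((Subtype.val : H → Γ) ⁻¹' S) := by
    ext x
    constructor
    · rintro ⟨y, hy, hyx⟩
      have : (x : Γ) * g⁻¹ ∈ S := by
        rw [← hyx]
        simpa using hy
      exact this
    · intro hx
      refine ⟨x * g⁻¹, hx, ?_⟩
      simp
  rw [h1, measure_mul_right_null]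
  exact h μ hμ

/-- conjugation -/
theorem Nul.conj' {H H' : Subgroup Γ} {S : Set Γ} (h : Nul H S) (g : Γ) (hH' : ∀ y, y ∈ H' ↔ g * y * g⁻¹ ∈ H) :
    Nul H' ((fun x => g⁻¹ * x * g) '' S) := by
  intro μ hμ
  have hmem : ∀ x : H, g⁻¹ * (x : Γ) * g ∈ H' := fun x => by
    rw [hH']
    simp [mul_assoc]
  have hmem' : ∀ y : H', g * (y : Γ) * g⁻¹ ∈ H := fun y => (hH' y).1 y.2
  let e : H' ≃* H :=
    { toFun := fun y => ⟨g * y * g⁻¹, hmem' y⟩
      invFun := fun x => ⟨g⁻¹ * x * g, hmem x⟩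
      left_inv := fun y => Subtype.ext (by simp [mul_assoc])
      right_inv := fun x => Subtype.ext (by simp [mul_assoc])
      map_mul' := fun y z => Subtype.ext (by simp [mul_assoc]) }
  have he : Continuous e :=
    Continuous.subtype_mk ((continuous_const.mul continuous_subtype_val).mul continuous_const) _
  have hes : Continuous e.symm :=
    Continuous.subtype_mk ((continuous_const.mul continuous_subtype_val).mul continuous_const) _
  have h1 : (μ.map e).IsHaarMeasure := e.isHaarMeasure_map μ he hes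
  have h2 := h (μ.map e) h1
  have hE : MeasurableEmbedding e := (Homeomorph.mk e.toEquiv he hes).measurableEmbedding
  rw [hE.map_apply] at h2
  convert h2 using 2
  ext y
  constructor
  · rintro ⟨x, hx, hxy⟩
    change g * (y : Γ) * g⁻¹ ∈ S
    rw [← hxy]
    simpa [mul_assoc] using hx
  · intro hy
    exact ⟨g * y * g⁻¹, hy, by simp [mul_assoc]⟩

theorem mem_map_conj {H : Subgroup Γ} (g y : Γ) :
    y ∈ H.map (MulAut.conj g⁻¹).toMonoidHom ↔ g * y * g⁻¹ ∈ H := by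
  constructor
  · rintro ⟨x, hx, rfl⟩
    have : g * ((MulAut.conj g⁻¹).toMonoidHom x) * g⁻¹ = x := by simp [mul_assoc]
    rw [this]
    exact hx
  · intro h
    exact ⟨g * y * g⁻¹, h, by simp [mul_assoc]⟩

/-- products of closed subgroups are Borel -/
theorem measurableSet_mul {H K : Subgroup Γ} (hH : IsClosed (H : Set Γ)) (hK : IsClosed (K : Set Γ)) :
    MeasurableSet ((H : Set Γ) * (K : Set Γ)) := by
  haveI := lc_of_closed hH
  haveI := lc_of_closed hK
  haveI := sc_sub H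
  haveI := sc_sub K
  have h1 : (H : Set Γ) * (K : Set Γ) = (fun z : H × K => (z.1 : Γ) * (z.2 : Γ)) '' univ := by
    ext x
    constructor
    · rintro ⟨a, ha, b, hb, rfl⟩
      exact ⟨(⟨a, ha⟩, ⟨b, hb⟩), mem_univ _, rfl⟩
    · rintro ⟨⟨a, b⟩, -, rfl⟩
      exact ⟨a, a.2, b, b.2, rfl⟩
  have hc : Continuous fun z : H × K => (z.1 : Γ) * (z.2 : Γ) := by fun_prop
  have h2 : IsSigmaCompact ((H : Set Γ) * (K : Set Γ)) := by
    rw [h1]
    exact isSigmaCompact_univ.image hc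
  obtain ⟨C, hC, hU⟩ := h2
  rw [← hU]
  exact MeasurableSet.iUnion fun n => (hC n).isClosed.measurableSet

/-- **Fubini property** of the Haar null sets. -/
theorem fubini {K₁ K₂ : Subgroup Γ} (h₁ : IsClosed (K₁ : Set Γ)) (h₂ : IsClosed (K₂ : Set Γ)) (hle : K₂ ≤ K₁)
    (μ₁ : Measure K₁) (hμ₁ : μ₁.IsHaarMeasure) {S : Set Γ} (hS : MeasurableSet S) :
    Nul K₁ S ↔ ∀ᵐ x : K₁ ∂μ₁, Nul K₂ ((fun y => (x : Γ) * y) ⁻¹' S) := by
  haveI := lc_of_closed h₁
  haveI := lc_of_closed h₂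
  haveI := sc_sub K₁
  haveI := sc_sub K₂
  obtain ⟨μ₂, hμ₂⟩ := exists_haar h₂
  rw [nul_iff h₁ μ₁ hμ₁]
  have hm : Measurable fun z : K₁ × K₂ => (z.1 : Γ) * (z.2 : Γ) := by
    have : Continuous fun z : K₁ × K₂ => (z.1 : Γ) * (z.2 : Γ) := by fun_prop
    exact this.measurable
  set T : Set (K₁ × K₂) := (fun z : K₁ × K₂ => (z.1 : Γ) * (z.2 : Γ)) ⁻¹' S with hT
  have hTm : MeasurableSet T := hm hS
  have e1 : (μ₁.prod μ₂) T = 0 ↔ ∀ᵐ x : K₁ ∂μ₁, Nul K₂ ((fun y => (x : Γ) * y) ⁻¹' S) := by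
    rw [measure_prod_null hTm]
    refine Filter.eventually_congr (Eventually.of_forall fun x => ?_)
    rw [nul_iff h₂ μ₂ hμ₂]
    rfl
  rw [← e1, Measure.prod_apply_symm hTm]
  have e2 : ∀ y : K₂, μ₁ ((fun x : K₁ => (x, y)) ⁻¹' T) = 0 ↔ μ₁ ((Subtype.val : K₁ → Γ) ⁻¹' S) = 0 := by
    intro y
    exact measure_mul_right_null (s := (Subtype.val : K₁ → Γ) ⁻¹' S) μ₁ (⟨y, hle y.2⟩ : K₁)
  constructor
  · intro h
    have h3 : (fun y : K₂ => μ₁ ((fun x : K₁ => (x, y)) ⁻¹' T)) = fun _ => 0 := by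
      funext y
      exact (e2 y).2 h
    rw [h3]
    simp
  · intro h
    have hmeas : Measurable fun y : K₂ => μ₁ ((fun x : K₁ => (x, y)) ⁻¹' T) := measurable_measure_prodMk_right hTm
    rw [lintegral_eq_zero_iff hmeas] at h
    have h0 : μ₂ ≠ 0 := by
      intro h0
      have := IsOpen.measure_ne_zero μ₂ isOpen_univ (univ_nonempty (α := K₂))
      simp [h0] at this
    haveI : NeBot (ae μ₂) := ae_neBot.2 h0
    obtain ⟨y, hy⟩ := h.exists
    exact (e2 y).1 hy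

section Trans

variable {K₁ K₂ K₃ H : Subgroup Γ}

theorem slice_eq (h₃₂ : K₃ ≤ K₂) {h c : Γ} (hh : h ∈ H) (hc : c ∈ K₂) (y : Γ) (hy : y ∈ K₂) :
    h * c * y ∈ (H : Set Γ) * (K₃ : Set Γ) ↔ c * y ∈ ((H ⊓ K₂ : Subgroup Γ) : Set Γ) * (K₃ : Set Γ) := by
  constructor
  · rintro ⟨a, ha, b, hb, hab⟩
    have h1 : c * y = (h⁻¹ * a) * b := by
      have : a * b = h * c * y := hab
      rw [mul_assoc, this]
      group
    refine ⟨h⁻¹ * a, ⟨H.mul_mem (H.inv_mem hh) ha, ?_⟩, b, hb, h1.symm⟩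
    have h2 : h⁻¹ * a = c * y * b⁻¹ := by rw [h1]; group
    rw [h2]
    exact K₂.mul_mem (K₂.mul_mem hc hy) (K₂.inv_mem (h₃₂ hb))
  · rintro ⟨a, ha, b, hb, hab⟩
    refine ⟨h * a, H.mul_mem hh ha.1, b, hb, ?_⟩
    have : a * b = c * y := hab
    change h * a * b = h * c * y
    rw [mul_assoc, this]
    group

theorem mem_of_slice (h₃₂ : K₃ ≤ K₂) {x y : Γ} (hy : y ∈ K₂) (h : x * y ∈ (H : Set Γ) * (K₃ : Set Γ)) :
    x ∈ (H : Set Γ) * (K₂ : Set Γ) := by
  obtain ⟨a, ha, b, hb, hab⟩ := h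
  refine ⟨a, ha, b * y⁻¹, K₂.mul_mem (h₃₂ hb) (K₂.inv_mem hy), ?_⟩
  have : a * b = x * y := hab
  change a * (b * y⁻¹) = x
  rw [← mul_assoc, this]
  group

theorem nul_slice (h₂ : IsClosed (K₂ : Set Γ)) (S : Set Γ) {c : Γ} (hc : c ∈ K₂) :
    Nul K₂ ((fun y => c * y) ⁻¹' S) ↔ Nul K₂ S := by
  constructor
  · intro h
    have h1 := h.smul hc
    refine h1.mono fun x hx hxS => ⟨c⁻¹ * x, ?_, by simp⟩
    simpa using hxS
  · intro h
    have h1 := h.smul (K₂.inv_mem hc)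
    refine h1.mono fun x hx hxS => ⟨c * x, hxS, by simp⟩

/-- the slices of `H K₃` in the cosets of `K₂` -/
theorem slice_nul (c₂ : IsClosed (K₂ : Set Γ)) (h₃₂ : K₃ ≤ K₂) (x : Γ) :
    Nul K₂ ((fun y => x * y) ⁻¹' ((H : Set Γ) * (K₃ : Set Γ))) ↔
      (x ∈ (H : Set Γ) * (K₂ : Set Γ) → Nul K₂ (((H ⊓ K₂ : Subgroup Γ) : Set Γ) * (K₃ : Set Γ))) := by
  constructor
  · rintro h0 ⟨h, hh, d, hd, hhd⟩
    rw [← nul_slice c₂ _ hd]
    refine h0.mono fun y hy hyS => ?_
    have h2 : h * d = x := hhd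
    change x * y ∈ (H : Set Γ) * (K₃ : Set Γ)
    rw [← h2]
    exact (slice_eq h₃₂ hh hd y hy).2 hyS
  · intro h0
    by_cases hx : x ∈ (H : Set Γ) * (K₂ : Set Γ)
    · have hT := h0 hx
      obtain ⟨h, hh, d, hd, hhd⟩ := hx
      have h1 := (nul_slice c₂ _ hd).2 hT
      refine h1.mono fun y hy hyS => ?_
      have h2 : h * d = x := hhd
      have h3 : h * d * y ∈ (H : Set Γ) * (K₃ : Set Γ) := by rw [h2]; exact hyS
      exact (slice_eq h₃₂ hh hd y hy).1 h3
    · exact (Nul.empty K₂).mono fun y hy hyS => hx (mem_of_slice h₃₂ hy hyS)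

/-- the slices of the complement of `H K₃` in the cosets of `K₂` -/
theorem slice_conul (c₂ : IsClosed (K₂ : Set Γ)) (h₃₂ : K₃ ≤ K₂) (x : Γ) :
    Nul K₂ ((fun y => x * y) ⁻¹' ((H : Set Γ) * (K₃ : Set Γ))ᶜ) ↔
      (x ∈ (H : Set Γ) * (K₂ : Set Γ) ∧ Nul K₂ (((H ⊓ K₂ : Subgroup Γ) : Set Γ) * (K₃ : Set Γ))ᶜ) := by
  constructor
  · intro h0
    by_cases hx : x ∈ (H : Set Γ) * (K₂ : Set Γ)
    · refine ⟨hx, ?_⟩
      obtain ⟨h, hh, d, hd, hhd⟩ := hx
      rw [← nul_slice c₂ _ hd]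
      refine h0.mono fun y hy hyS => ?_
      have h2 : h * d = x := hhd
      change ¬ x * y ∈ (H : Set Γ) * (K₃ : Set Γ)
      rw [← h2]
      intro h3
      exact hyS ((slice_eq h₃₂ hh hd y hy).1 h3)
    · exfalso
      refine not_nul_self c₂ subset_rfl (h0.mono fun y hy _ h3 => hx (mem_of_slice h₃₂ hy h3))
  · rintro ⟨⟨h, hh, d, hd, hhd⟩, hT⟩
    have h1 := (nul_slice c₂ _ hd).2 hT
    refine h1.mono fun y hy hyS h3 => hyS ?_
    have h2 : h * d = x := hhd
    change x * y ∈ (H : Set Γ) * (K₃ : Set Γ)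
    rw [← h2]
    exact (slice_eq h₃₂ hh hd y hy).2 h3

/-- transitivity for non-null products -/
theorem trans_nul (c₁ : IsClosed (K₁ : Set Γ)) (c₂ : IsClosed (K₂ : Set Γ)) (c₃ : IsClosed (K₃ : Set Γ))
    (c : IsClosed (H : Set Γ)) (h₃₂ : K₃ ≤ K₂) (h₂₁ : K₂ ≤ K₁) :
    Nul K₁ ((H : Set Γ) * (K₃ : Set Γ)) ↔
      (Nul K₂ (((H ⊓ K₂ : Subgroup Γ) : Set Γ) * (K₃ : Set Γ)) ∨ Nul K₁ ((H : Set Γ) * (K₂ : Set Γ))) := by
  obtain ⟨μ₁, hμ₁⟩ := exists_haar c₁
  rw [fubini c₁ c₂ h₂₁ μ₁ hμ₁ (measurableSet_mul c c₃), nul_iff c₁ μ₁ hμ₁ ((H : Set Γ) * (K₂ : Set Γ))]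
  simp_rw [slice_nul c₂ h₃₂]
  by_cases hT : Nul K₂ (((H ⊓ K₂ : Subgroup Γ) : Set Γ) * (K₃ : Set Γ))
  · simp only [hT, true_or, iff_true, imp_true_iff]
    exact Eventually.of_forall fun _ => trivial
  · simp only [hT, false_or, imp_false]
    rw [ae_iff]
    simp only [not_not]
    rfl

/-- transitivity for conull products -/
theorem trans_conul (c₁ : IsClosed (K₁ : Set Γ)) (c₂ : IsClosed (K₂ : Set Γ)) (c₃ : IsClosed (K₃ : Set Γ))
    (c : IsClosed (H : Set Γ)) (h₃₂ : K₃ ≤ K₂) (h₂₁ : K₂ ≤ K₁) :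
    Nul K₁ ((H : Set Γ) * (K₃ : Set Γ))ᶜ ↔
      (Nul K₂ (((H ⊓ K₂ : Subgroup Γ) : Set Γ) * (K₃ : Set Γ))ᶜ ∧ Nul K₁ ((H : Set Γ) * (K₂ : Set Γ))ᶜ) := by
  obtain ⟨μ₁, hμ₁⟩ := exists_haar c₁
  haveI : NeBot (ae μ₁) := by
    refine ae_neBot.2 fun h0 => ?_
    have := IsOpen.measure_ne_zero μ₁ isOpen_univ (univ_nonempty (α := K₁))
    simp [h0] at this
  rw [fubini c₁ c₂ h₂₁ μ₁ hμ₁ (measurableSet_mul c c₃).compl, nul_iff c₁ μ₁ hμ₁ ((H : Set Γ) * (K₂ : Set Γ))ᶜ]
  simp_rw [slice_conul c₂ h₃₂]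
  rw [eventually_and, eventually_const, and_comm]
  rfl

end Trans

/-- a closed subgroup is not null exactly if it has countable index -/
theorem nul_subgroup_iff {K H : Subgroup Γ} (cK : IsClosed (K : Set Γ)) (cH : IsClosed (H : Set Γ)) (h : K ≤ H) :
    ¬ Nul H (K : Set Γ) ↔ Countable (H ⧸ K.subgroupOf H) := by
  obtain ⟨μ, hμ⟩ := exists_haar cH
  haveI := sigmaFinite_of_haar cH μ hμ
  rw [nul_iff cH μ hμ]
  have key : ∀ q : H ⧸ K.subgroupOf H, (QuotientGroup.mk : H → H ⧸ K.subgroupOf H) ⁻¹' {q} =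
      (fun x => q.out⁻¹ * x) ⁻¹' ((Subtype.val : H → Γ) ⁻¹' (K : Set Γ)) := by
    intro q
    ext x
    simp only [mem_preimage, mem_singleton_iff]
    constructor
    · intro hx
      have h1 : (QuotientGroup.mk q.out : H ⧸ K.subgroupOf H) = QuotientGroup.mk x := by
        rw [hx]; exact Quotient.out_eq' q
      have h2 : q.out⁻¹ * x ∈ K.subgroupOf H := QuotientGroup.eq.1 h1
      exact h2
    · intro hx
      have h2 : q.out⁻¹ * x ∈ K.subgroupOf H := hx
      have h1 : (QuotientGroup.mk q.out : H ⧸ K.subgroupOf H) = QuotientGroup.mk x := QuotientGroup.eq.2 h2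
      rw [← h1]
      exact Quotient.out_eq' q
  have hmeas : MeasurableSet ((Subtype.val : H → Γ) ⁻¹' (K : Set Γ)) :=
    (cK.preimage continuous_subtype_val).measurableSet
  have hcos : ∀ q : H ⧸ K.subgroupOf H, μ ((QuotientGroup.mk : H → H ⧸ K.subgroupOf H) ⁻¹' {q}) =
      μ ((Subtype.val : H → Γ) ⁻¹' (K : Set Γ)) := by
    intro q
    rw [key q, measure_preimage_mul]
  constructor
  · intro hpos
    have h1 : Set.Countable {q : H ⧸ K.subgroupOf H |
        0 < μ ((QuotientGroup.mk : H → H ⧸ K.subgroupOf H) ⁻¹' {q})} := by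
      apply Measure.countable_meas_pos_of_disjoint_iUnion
      · intro q
        rw [key q]
        exact (measurable_const_mul _) hmeas
      · intro q r hqr
        exact Disjoint.preimage _ (by simpa using hqr)
    have h2 : {q : H ⧸ K.subgroupOf H |
        0 < μ ((QuotientGroup.mk : H → H ⧸ K.subgroupOf H) ⁻¹' {q})} = univ := by
      ext q
      simp only [mem_ofPred_eq, mem_univ, iff_true, hcos q]
      exact pos_iff_ne_zero.2 hpos
    rw [h2] at h1
    exact countable_univ_iff.1 h1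
  · intro hc h0
    have h1 : (univ : Set H) = ⋃ q : H ⧸ K.subgroupOf H, (QuotientGroup.mk : H → H ⧸ K.subgroupOf H) ⁻¹' {q} := by
      ext x
      simp
    have h2 : μ (univ : Set H) = 0 := by
      rw [h1]
      refine measure_iUnion_null fun q => ?_
      rw [hcos q, h0]
    exact IsOpen.measure_ne_zero μ isOpen_univ univ_nonempty h2

/-- a conull closed subgroup is everything -/
theorem eq_of_conul {K H : Subgroup Γ} (cH : IsClosed (H : Set Γ)) (h : K ≤ H)
    (h0 : Nul H (K : Set Γ)ᶜ) : K = H := by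
  refine le_antisymm h fun x hx => ?_
  by_contra hxK
  have h1 : Nul H (K : Set Γ) := by
    have h2 : Nul H ((fun y => x * y) '' (K : Set Γ)) := by
      refine h0.mono ?_
      rintro y - ⟨k, hk, rfl⟩ hy
      apply hxK
      have : x * k * k⁻¹ ∈ K := K.mul_mem hy (K.inv_mem hk)
      simpa using this
    have h3 := h2.smul (H.inv_mem hx)
    refine h3.mono fun y hy hyK => ⟨x * y, ⟨y, hyK, rfl⟩, by simp⟩
  refine not_nul_self cH subset_rfl ((h1.union h0).mono fun y _ _ => ?_)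
  by_cases hy : y ∈ K
  · exact Or.inl hy
  · exact Or.inr hy

end LC

end Pool.Agent.H663.SA
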