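import Pool.Agent.H663.SA.Defs
import Pool.Agent.H663.SA.Haar

/-!
# A strongly admissible scheme on certain countable products of locally compact groups

Let `Γ n` be second countable locally compact groups such that all closed subgroups of `G = ∏ n, Γ n` are products
`H = ∏ n, H n` (`AllProd`). The ideal `E H` is generated by the sets `{x | x n ∈ N}` with `N` a null set of `H n` and the
sets `{x | ∀ n, x n ∉ C n}` where infinitely many `C n` are not null in `H n`.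
-/

set_option autoImplicit false
set_option linter.unusedSectionVars false
set_option linter.style.haveILetI false

open MeasureTheory Measure Set Filter Topology
open scoped Pointwise

namespace Pool.Agent.H663.SA

variable {Γ : ℕ → Type*} [∀ n, Group (Γ n)] [∀ n, TopologicalSpace (Γ n)] [∀ n, IsTopologicalGroup (Γ n)]
  [∀ n, MeasurableSpace (Γ n)] [∀ n, BorelSpace (Γ n)] [∀ n, LocallyCompactSpace (Γ n)]
  [∀ n, SecondCountableTopology (Γ n)] [∀ n, T2Space (Γ n)]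

theorem mem_map_conj' {G : Type*} [Group G] {H : Subgroup G} (g y : G) :
    y ∈ H.map (MulAut.conj g⁻¹).toMonoidHom ↔ g * y * g⁻¹ ∈ H := by
  constructor
  · rintro ⟨x, hx, rfl⟩
    have : g * ((MulAut.conj g⁻¹).toMonoidHom x) * g⁻¹ = x := by simp [mul_assoc]
    rw [this]
    exact hx
  · intro h
    exact ⟨g * y * g⁻¹, h, by simp [mul_assoc]⟩

/-- the `n`-th component of a subgroup of the product -/
def comp (H : Subgroup (∀ n, Γ n)) (n : ℕ) : Subgroup (Γ n) := H.comap (MonoidHom.mulSingle Γ n)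

theorem mem_comp {H : Subgroup (∀ n, Γ n)} {n : ℕ} {y : Γ n} : y ∈ comp H n ↔ Pi.mulSingle n y ∈ H := Iff.rfl

/-- all closed subgroups of the product are products -/
def AllProd (Γ : ℕ → Type*) [∀ n, Group (Γ n)] [∀ n, TopologicalSpace (Γ n)] : Prop :=
  ∀ H : Subgroup (∀ n, Γ n), IsClosed (H : Set (∀ n, Γ n)) → ∀ x, x ∈ H ↔ ∀ n, Pi.mulSingle n (x n) ∈ H

theorem comp_closed {H : Subgroup (∀ n, Γ n)} (hH : IsClosed (H : Set (∀ n, Γ n))) (n : ℕ) :
    IsClosed (comp H n : Set (Γ n)) :=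
  hH.preimage (continuous_mulSingle n)

theorem comp_mono {H K : Subgroup (∀ n, Γ n)} (h : H ≤ K) (n : ℕ) : comp H n ≤ comp K n := fun _ hx => h hx

theorem comp_inf (H K : Subgroup (∀ n, Γ n)) (n : ℕ) : comp (H ⊓ K) n = comp H n ⊓ comp K n := rfl

/-- the product set -/
theorem mem_mul_iff (hA : AllProd Γ) {H K : Subgroup (∀ n, Γ n)} (hH : IsClosed (H : Set (∀ n, Γ n)))
    (hK : IsClosed (K : Set (∀ n, Γ n))) (x : ∀ n, Γ n) :
    x ∈ (H : Set (∀ n, Γ n)) * (K : Set (∀ n, Γ n)) ↔ ∀ n, x n ∈ (comp H n : Set (Γ n)) * (comp K n : Set (Γ n)) := by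
  constructor
  · rintro ⟨a, ha, b, hb, rfl⟩ n
    exact ⟨a n, (hA H hH a).1 ha n, b n, (hA K hK b).1 hb n, rfl⟩
  · intro h
    choose a ha b hb hab using h
    exact ⟨a, (hA H hH a).2 ha, b, (hA K hK b).2 hb, funext hab⟩

/-- The ideal `𝓔_H`. -/
def E (H : Subgroup (∀ n, Γ n)) : Set (Set (∀ n, Γ n)) :=
  {S | S ⊆ (H : Set (∀ n, Γ n)) ∧ ∃ (N : ∀ n, Set (Γ n)) (C : ℕ → ∀ n, Set (Γ n)),
    (∀ n, Nul (comp H n) (N n)) ∧ (∀ i, {n | ¬ Nul (comp H n) (C i n)}.Infinite) ∧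
    ∀ x ∈ S, (∃ n, x n ∈ N n) ∨ ∃ i, ∀ n, x n ∉ C i n}

/-- **Key lemma**: the product sets in `𝓔_H`. -/
theorem not_mem_E_iff (hA : AllProd Γ) {H : Subgroup (∀ n, Γ n)} (hH : IsClosed (H : Set (∀ n, Γ n)))
    {T : ∀ n, Set (Γ n)} {S : Set (∀ n, Γ n)} (hS : ∀ x, x ∈ S ↔ ∀ n, x n ∈ T n)
    (hT : ∀ n, T n ⊆ (comp H n : Set (Γ n))) :
    S ∉ E H ↔ (∀ n, ¬ Nul (comp H n) (T n)) ∧ {n | ¬ Nul (comp H n) (T n)ᶜ}.Finite := by
  have hSH : S ⊆ (H : Set (∀ n, Γ n)) := fun x hx => (hA H hH x).2 fun n => hT n ((hS x).1 hx n)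
  constructor
  · intro h
    by_contra hcon
    rw [not_and_or] at hcon
    apply h
    rcases hcon with hcon | hcon
    · push Not at hcon
      obtain ⟨m, hm⟩ := hcon
      refine ⟨hSH, fun n => if n = m then T n else ∅, fun _ _ => univ, fun n => ?_, fun i => ?_, fun x hx => ?_⟩
      · by_cases hn : n = m
        · subst hn
          simpa using hm
        · simpa [hn] using Nul.empty (comp H n)
      · have : {n | ¬ Nul (comp H n) (univ : Set (Γ n))} = univ := by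
          ext n
          simpa using not_nul_self (comp_closed hH n) (subset_univ _)
        rw [this]
        exact infinite_univ
      · left
        exact ⟨m, by simpa using (hS x).1 hx m⟩
    · refine ⟨hSH, fun n => ∅, fun _ n => (T n)ᶜ, fun n => Nul.empty _, fun i => hcon, fun x hx => ?_⟩
      right
      exact ⟨0, fun n hn => hn ((hS x).1 hx n)⟩
  · rintro ⟨h1, h2⟩ ⟨-, N, C, hN, hC, hx⟩
    -- choose different coordinates for the sets `C i`
    have h3 : ∀ i, ∃ᶠ n in atTop, ¬ Nul (comp H n) (C i n) ∧ Nul (comp H n) (T n)ᶜ := by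
      intro i
      have h4 : ∃ᶠ n in atTop, ¬ Nul (comp H n) (C i n) := Nat.frequently_atTop_iff_infinite.2 (hC i)
      have h5 : ∀ᶠ n in atTop, Nul (comp H n) (T n)ᶜ := by
        have h6 : ∀ᶠ n in cofinite, n ∉ {n | ¬ Nul (comp H n) (T n)ᶜ} := h2.eventually_cofinite_notMem
        rw [Nat.cofinite_eq_atTop] at h6
        filter_upwards [h6] with n hn
        simpa using hn
      exact h4.and_eventually h5
    obtain ⟨φ, hφ, hφ'⟩ := extraction_forall_of_frequently h3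
    have h4 : ∀ n, ∃ y, y ∈ T n ∧ y ∉ N n ∧ ∀ i, φ i = n → y ∈ C i n := by
      intro n
      by_cases hn : ∃ i, φ i = n
      · obtain ⟨i, rfl⟩ := hn
        obtain ⟨h5, h6⟩ := hφ' i
        obtain ⟨y, hy, hy1, hy2⟩ := exists_mem_diff h5 (h6.union (hN (φ i)))
        simp only [mem_union, mem_compl_iff, not_or, not_not] at hy2
        refine ⟨y, hy2.1, hy2.2, fun j hj => ?_⟩
        have := hφ.injective hj
        subst this
        exact hy1
      · obtain ⟨y, hy, hy1, hy2⟩ := exists_mem_diff (h1 n) (hN n)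
        exact ⟨y, hy1, hy2, fun i hi => (hn ⟨i, hi⟩).elim⟩
    choose x hxT hxN hxC using h4
    rcases hx x ((hS x).2 hxT) with ⟨n, hn⟩ | ⟨i, hi⟩
    · exact hxN n hn
    · exact hi (φ i) (hxC (φ i) i rfl)

theorem mul_sub_comp {H K L : Subgroup (∀ n, Γ n)} (h : H ≤ L) (k : K ≤ L) (n : ℕ) :
    (comp H n : Set (Γ n)) * (comp K n : Set (Γ n)) ⊆ (comp L n : Set (Γ n)) := by
  rintro x ⟨a, ha, b, hb, rfl⟩
  exact (comp L n).mul_mem (h ha) (k hb)

theorem self_not_mem (hA : AllProd Γ) {H : Subgroup (∀ n, Γ n)} (hH : IsClosed (H : Set (∀ n, Γ n))) :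
    (H : Set (∀ n, Γ n)) ∉ E H := by
  rw [not_mem_E_iff hA hH (T := fun n => (comp H n : Set (Γ n))) (fun x => hA H hH x) fun n => subset_rfl]
  refine ⟨fun n => not_nul_self (comp_closed hH n) subset_rfl, ?_⟩
  have : {n | ¬ Nul (comp H n) (comp H n : Set (Γ n))ᶜ} = ∅ := by
    ext n
    simp only [mem_ofPred_eq, mem_empty_iff_false, iff_false, not_not]
    exact (Nul.empty _).mono fun x hx hx' => (hx' hx).elim
  rw [this]
  exact finite_empty

theorem E_left {H : Subgroup (∀ n, Γ n)} {h : ∀ n, Γ n} (hh : h ∈ H) (hhn : ∀ n, h n ∈ comp H n) {S : Set (∀ n, Γ n)}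
    (hS : S ∈ E H) : (fun x => h * x) '' S ∈ E H := by
  obtain ⟨hSH, N, C, hN, hC, hx⟩ := hS
  refine ⟨?_, fun n => (fun x => h n * x) '' (N n), fun i n => (fun x => h n * x) '' (C i n), fun n => (hN n).smul (hhn n),
    fun i => (hC i).mono fun n (hn : ¬ Nul (comp H n) (C i n)) (hn' : Nul (comp H n) _) => hn ?_, ?_⟩
  · rintro _ ⟨x, hx, rfl⟩
    exact H.mul_mem hh (hSH hx)
  · refine (hn'.smul ((comp H n).inv_mem (hhn n))).mono fun x _ hx => ⟨h n * x, ⟨x, hx, rfl⟩, by simp⟩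
  · rintro _ ⟨x, hxS, rfl⟩
    rcases hx x hxS with ⟨n, hn⟩ | ⟨i, hi⟩
    · exact Or.inl ⟨n, ⟨x n, hn, rfl⟩⟩
    · refine Or.inr ⟨i, fun n hn => hi n ?_⟩
      obtain ⟨y, hy, hyx⟩ := hn
      have : y = x n := mul_left_cancel hyx
      rwa [← this]

theorem E_right {H : Subgroup (∀ n, Γ n)} (hH : IsClosed (H : Set (∀ n, Γ n))) {h : ∀ n, Γ n} (hh : h ∈ H)
    (hhn : ∀ n, h n ∈ comp H n) {S : Set (∀ n, Γ n)} (hS : S ∈ E H) : (fun x => x * h) '' S ∈ E H := by
  obtain ⟨hSH, N, C, hN, hC, hx⟩ := hS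
  refine ⟨?_, fun n => (fun x => x * h n) '' (N n), fun i n => (fun x => x * h n) '' (C i n),
    fun n => (hN n).mul_right (comp_closed hH n) (hhn n),
    fun i => (hC i).mono fun n (hn : ¬ Nul (comp H n) (C i n)) (hn' : Nul (comp H n) _) => hn ?_, ?_⟩
  · rintro _ ⟨x, hx, rfl⟩
    exact H.mul_mem (hSH hx) hh
  · refine (hn'.mul_right (comp_closed hH n) ((comp H n).inv_mem (hhn n))).mono
      fun x _ hx => ⟨x * h n, ⟨x, hx, rfl⟩, by simp⟩
  · rintro _ ⟨x, hxS, rfl⟩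
    rcases hx x hxS with ⟨n, hn⟩ | ⟨i, hi⟩
    · exact Or.inl ⟨n, ⟨x n, hn, rfl⟩⟩
    · refine Or.inr ⟨i, fun n hn => hi n ?_⟩
      obtain ⟨y, hy, hyx⟩ := hn
      have : y = x n := mul_right_cancel hyx
      rwa [← this]

theorem E_conj {H H' : Subgroup (∀ n, Γ n)} (g : ∀ n, Γ n) (hH' : ∀ y, y ∈ H' ↔ g * y * g⁻¹ ∈ H)
    {S : Set (∀ n, Γ n)} (hS : S ∈ E H) : (fun x => g⁻¹ * x * g) '' S ∈ E H' := by
  obtain ⟨hSH, N, C, hN, hC, hx⟩ := hS
  have hc : ∀ n (y : Γ n), y ∈ comp H' n ↔ g n * y * (g n)⁻¹ ∈ comp H n := by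
    intro n y
    rw [mem_comp, mem_comp, hH']
    have : g * Pi.mulSingle n y * g⁻¹ = Pi.mulSingle n (g n * y * (g n)⁻¹) := by
      funext m
      by_cases hm : m = n
      · subst hm; simp
      · simp [Pi.mulSingle_eq_of_ne hm]
    rw [this]
  have hc' : ∀ n (y : Γ n), y ∈ comp H n ↔ (g n)⁻¹ * y * (g n)⁻¹⁻¹ ∈ comp H' n := by
    intro n y
    rw [hc]
    simp [mul_assoc]
  refine ⟨?_, fun n => (fun x => (g n)⁻¹ * x * g n) '' (N n), fun i n => (fun x => (g n)⁻¹ * x * g n) '' (C i n),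
    fun n => (hN n).conj' (g n) (hc n),
    fun i => (hC i).mono fun n (hn : ¬ Nul (comp H n) (C i n)) (hn' : Nul (comp H' n) _) => hn ?_, ?_⟩
  · rintro _ ⟨x, hx, rfl⟩
    change g⁻¹ * x * g ∈ H'
    rw [hH']
    have : g * (g⁻¹ * x * g) * g⁻¹ = x := by group
    rw [this]
    exact hSH hx
  · refine (hn'.conj' (g n)⁻¹ (hc' n)).mono fun x _ hx => ⟨(g n)⁻¹ * x * g n, ⟨x, hx, rfl⟩, by simp [mul_assoc]⟩
  · rintro _ ⟨x, hxS, rfl⟩
    rcases hx x hxS with ⟨n, hn⟩ | ⟨i, hi⟩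
    · exact Or.inl ⟨n, ⟨x n, hn, rfl⟩⟩
    · refine Or.inr ⟨i, fun n hn => hi n ?_⟩
      obtain ⟨y, hy, hyx⟩ := hn
      have h1 : (g n)⁻¹ * y * g n = (g n)⁻¹ * x n * g n := hyx
      have : y = x n := mul_left_cancel (mul_right_cancel h1)
      rwa [← this]

/-- countable index of a subgroup that is not in the ideal -/
theorem countable_of_not_mem (hA : AllProd Γ) {K H : Subgroup (∀ n, Γ n)} (hK : IsClosed (K : Set (∀ n, Γ n)))
    (hH : IsClosed (H : Set (∀ n, Γ n))) (hKH : K ≤ H) (h : (K : Set (∀ n, Γ n)) ∉ E H) :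
    Countable (H ⧸ K.subgroupOf H) := by
  rw [not_mem_E_iff hA hH (T := fun n => (comp K n : Set (Γ n))) (fun x => hA K hK x)
    fun n => comp_mono hKH n] at h
  obtain ⟨h1, h2⟩ := h
  have h3 : ∀ n, Countable (comp H n ⧸ (comp K n).subgroupOf (comp H n)) := fun n =>
    (nul_subgroup_iff (comp_closed hK n) (comp_closed hH n) (comp_mono hKH n)).1 (h1 n)
  set F := {n | ¬ Nul (comp H n) (comp K n : Set (Γ n))ᶜ} with hF
  have h4 : ∀ n, n ∉ F → comp K n = comp H n := by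
    intro n hn
    simp only [hF, mem_ofPred_eq, not_not] at hn
    exact eq_of_conul (comp_closed hH n) (comp_mono hKH n) hn
  haveI : Finite F := h2
  let f : (H ⧸ K.subgroupOf H) → ∀ n : F, (comp H n ⧸ (comp K n).subgroupOf (comp H n)) := fun q n =>
    QuotientGroup.mk ⟨(q.out : ∀ n, Γ n) n, (hA H hH _).1 q.out.2 n⟩
  have hf : Function.Injective f := by
    intro q r hqr
    have h5 : (q.out)⁻¹ * r.out ∈ K.subgroupOf H := by
      rw [Subgroup.mem_subgroupOf, hA K hK]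
      intro n
      by_cases hn : n ∈ F
      · have h6 := congr_fun hqr ⟨n, hn⟩
        have h7 := QuotientGroup.eq.1 h6
        exact h7
      · have h6 : ((q.out)⁻¹ * r.out : H) ∈ H.subgroupOf H := by simp
        have h7 := (hA H hH _).1 ((q.out)⁻¹ * r.out : H).2 n
        have h8 : (((q.out)⁻¹ * r.out : H) : ∀ n, Γ n) n ∈ comp H n := h7
        rw [← h4 n hn] at h8
        exact h8
    rw [← Quotient.out_eq' q, ← Quotient.out_eq' r]
    exact QuotientGroup.eq.2 h5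
  exact hf.countable

/-- **The scheme `𝓔` is strongly admissible.** -/
theorem stronglyAdmissible_E (hA : AllProd Γ) : StronglyAdmissible (E (Γ := Γ)) where
  sub := fun H _ S hS => hS.1
  empty := fun H hH => by
    refine ⟨empty_subset _, fun _ => ∅, fun _ _ => univ, fun n => Nul.empty _, fun i => ?_, fun x hx => hx.elim⟩
    have : {n | ¬ Nul (comp H n) (univ : Set (Γ n))} = univ := by
      ext n
      simpa using not_nul_self (comp_closed hH n) (subset_univ _)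
    rw [this]
    exact infinite_univ
  mono := fun H _ S hS T hT => by
    obtain ⟨h1, N, C, hN, hC, hx⟩ := hS
    exact ⟨hT.trans h1, N, C, hN, hC, fun x hx' => hx x (hT hx')⟩
  union := fun H _ f hf => by
    choose h1 N C hN hC hx using hf
    refine ⟨iUnion_subset h1, fun n => ⋃ k, N k n, fun j => C j.unpair.1 j.unpair.2,
      fun n => Nul.iUnion fun k => hN k n, fun j => hC _ _, fun x hx' => ?_⟩
    obtain ⟨k, hk⟩ := mem_iUnion.1 hx'
    rcases hx k x hk with ⟨n, hn⟩ | ⟨i, hi⟩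
    · exact Or.inl ⟨n, mem_iUnion.2 ⟨k, hn⟩⟩
    · refine Or.inr ⟨Nat.pair k i, ?_⟩
      simpa using hi
  left := fun H hH h hh S hS => E_left hh (fun n => (hA H hH h).1 hh n) hS
  right := fun H hH h hh S hS => E_right hH hh (fun n => (hA H hH h).1 hh n) hS
  conj := fun H _ g S => by
    constructor
    · exact E_conj g fun y => mem_map_conj' g y
    · intro h
      have h1 := E_conj (H' := H) g⁻¹ (fun y => by
        rw [mem_map_conj']
        simp [mul_assoc]) h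
      convert h1 using 1
      rw [image_image]
      simp [mul_assoc]
  trans := fun K₁ K₂ K₃ H c₁ c₂ c₃ c h₃₂ h₂₁ hH₁ => by
    have hI : IsClosed ((H ⊓ K₂ : Subgroup (∀ n, Γ n)) : Set (∀ n, Γ n)) := c.inter c₂
    rw [not_mem_E_iff hA c₂ (fun x => mem_mul_iff hA hI c₃ x) (fun n => mul_sub_comp inf_le_right h₃₂ n),
      not_mem_E_iff hA c₁ (fun x => mem_mul_iff hA c c₂ x) (fun n => mul_sub_comp hH₁ h₂₁ n),
      not_mem_E_iff hA c₁ (fun x => mem_mul_iff hA c c₃ x) (fun n => mul_sub_comp hH₁ (h₃₂.trans h₂₁) n)]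
    have a1 : ∀ n, ¬ Nul (comp K₁ n) ((comp H n : Set (Γ n)) * (comp K₃ n : Set (Γ n))) ↔
        (¬ Nul (comp K₂ n) ((comp (H ⊓ K₂) n : Set (Γ n)) * (comp K₃ n : Set (Γ n))) ∧
          ¬ Nul (comp K₁ n) ((comp H n : Set (Γ n)) * (comp K₂ n : Set (Γ n)))) := by
      intro n
      rw [trans_nul (comp_closed c₁ n) (comp_closed c₂ n) (comp_closed c₃ n) (comp_closed c n) (comp_mono h₃₂ n)
        (comp_mono h₂₁ n), not_or]
      rfl
    have a2 : ∀ n, ¬ Nul (comp K₁ n) ((comp H n : Set (Γ n)) * (comp K₃ n : Set (Γ n)))ᶜ ↔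
        (¬ Nul (comp K₂ n) ((comp (H ⊓ K₂) n : Set (Γ n)) * (comp K₃ n : Set (Γ n)))ᶜ ∨
          ¬ Nul (comp K₁ n) ((comp H n : Set (Γ n)) * (comp K₂ n : Set (Γ n)))ᶜ) := by
      intro n
      rw [trans_conul (comp_closed c₁ n) (comp_closed c₂ n) (comp_closed c₃ n) (comp_closed c n) (comp_mono h₃₂ n)
        (comp_mono h₂₁ n), not_and_or]
      rfl
    simp only [a1, a2]
    rw [show {n | ¬ Nul (comp K₂ n) ((comp (H ⊓ K₂) n : Set (Γ n)) * (comp K₃ n : Set (Γ n)))ᶜ ∨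
          ¬ Nul (comp K₁ n) ((comp H n : Set (Γ n)) * (comp K₂ n : Set (Γ n)))ᶜ} =
        {n | ¬ Nul (comp K₂ n) ((comp (H ⊓ K₂) n : Set (Γ n)) * (comp K₃ n : Set (Γ n)))ᶜ} ∪
          {n | ¬ Nul (comp K₁ n) ((comp H n : Set (Γ n)) * (comp K₂ n : Set (Γ n)))ᶜ} from rfl, finite_union, forall_and]
    tauto
  dich := fun K H hK hH hKH => by
    constructor
    · intro h hc
      apply self_not_mem hA hH
      -- countably many left translates of `K` cover `H`
      obtain ⟨f, hf⟩ := exists_surjective_nat (H ⧸ K.subgroupOf H)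
      have h1 : (H : Set (∀ n, Γ n)) = ⋃ k, (fun x => ((f k).out : ∀ n, Γ n) * x) '' (K : Set (∀ n, Γ n)) := by
        ext x
        rw [mem_iUnion]
        constructor
        · intro hx
          obtain ⟨k, hk⟩ := hf (QuotientGroup.mk ⟨x, hx⟩)
          refine ⟨k, ((f k).out : ∀ n, Γ n)⁻¹ * x, ?_, by simp⟩
          have h2 : (QuotientGroup.mk (f k).out : H ⧸ K.subgroupOf H) = QuotientGroup.mk ⟨x, hx⟩ := by
            rw [← hk]
            exact Quotient.out_eq' _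
          have h3 : (f k).out⁻¹ * (⟨x, hx⟩ : H) ∈ K.subgroupOf H := QuotientGroup.eq.1 h2
          exact h3
        · rintro ⟨k, y, hy, rfl⟩
          exact H.mul_mem (f k).out.2 (hKH hy)
      have h2 : ∀ k, (fun x => ((f k).out : ∀ n, Γ n) * x) '' (K : Set (∀ n, Γ n)) ∈ E H := fun k =>
        E_left (f k).out.2 (fun n => (hA H hH _).1 (f k).out.2 n) h
      have h3 : (⋃ k, (fun x => ((f k).out : ∀ n, Γ n) * x) '' (K : Set (∀ n, Γ n))) ∈ E H := by
        choose h1 N C hN hC hx using h2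
        refine ⟨iUnion_subset h1, fun n => ⋃ k, N k n, fun j => C j.unpair.1 j.unpair.2,
          fun n => Nul.iUnion fun k => hN k n, fun j => hC _ _, fun x hx' => ?_⟩
        obtain ⟨k, hk⟩ := mem_iUnion.1 hx'
        rcases hx k x hk with ⟨n, hn⟩ | ⟨i, hi⟩
        · exact Or.inl ⟨n, mem_iUnion.2 ⟨k, hn⟩⟩
        · refine Or.inr ⟨Nat.pair k i, ?_⟩
          simpa using hi
      rwa [← h1] at h3
    · intro h
      by_contra hcon
      exact h (countable_of_not_mem hA hK hH hKH hcon)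

end Pool.Agent.H663.SA
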