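import Pool.Agent.H663.SA.Example
import Pool.Agent.H663.SA.Scheme

/-!
# The complement of the product is not null
-/

set_option autoImplicit false
set_option linter.unusedSectionVars false
set_option linter.style.haveILetI false

open Set Filter Topology MeasureTheory
open scoped Pointwise ENNReal

namespace Pool.Agent.H663.SA

variable {A : ℕ → Type} [∀ n, AddCommGroup (A n)] [∀ n, Finite (A n)] {D : Set ℕ}

instance : MeasurableSpace (TG A D) := borel _
instance : BorelSpace (TG A D) := ⟨rfl⟩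

theorem nul_top {Γ : Type*} [Group Γ] [TopologicalSpace Γ] [IsTopologicalGroup Γ] [MeasurableSpace Γ] [BorelSpace Γ]
    (ν : Measure Γ) (hν : ν.IsHaarMeasure) {S : Set Γ} (h : Nul (⊤ : Subgroup Γ) S) : ν S = 0 := by
  let e : Γ ≃* (⊤ : Subgroup Γ) := Subgroup.topEquiv.symm
  have he : Continuous e := Continuous.subtype_mk continuous_id _
  have hes : Continuous e.symm := continuous_subtype_val
  have h1 : (ν.map e).IsHaarMeasure := e.isHaarMeasure_map ν he hes
  have h2 := h (ν.map e) h1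
  have hE : MeasurableEmbedding e := (Homeomorph.mk e.toEquiv he hes).measurableEmbedding
  rw [hE.map_apply] at h2
  exact h2

theorem isOpen_val (w : ∀ i, A i) (n : ℕ) (c : A n) : IsOpen {g : TG A D | g.act w n = c} := by
  rw [isOpen_iff']
  intro g hg
  refine ⟨n + 1, fun v hv => ?_⟩
  change (g * v).act w n = c
  rw [TG.act_mul, g.agree (V_agree hv w) n (Nat.lt_succ_self n)]
  exact hg

/-- the part of `V 0` where the coordinate `2 k` of `g 0` is `a` -/
def FF (A : ℕ → Type) [∀ n, AddCommGroup (A n)] (k : ℕ) (a : A (2 * k)) : Set (TG A Od) :=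
  {g | g ∈ V A Od 0 ∧ g.act 0 (2 * k) = a}

theorem FF_meas (k : ℕ) (a : A (2 * k)) : MeasurableSet (FF A k a) :=
  ((V_isOpen 0).inter (isOpen_val 0 (2 * k) a)).measurableSet

theorem measure_FF (ν : Measure (TG A Od)) [ν.IsHaarMeasure] (k : ℕ) (a : A (2 * k)) :
    ν (FF A k a) = ν (FF A k 0) := by
  have h1 : FF A k 0 = (fun g => transl (2 * k) (even_not_mem k) a * g) ⁻¹' (FF A k a) := by
    ext g
    have hv : transl (2 * k) (even_not_mem k) a ∈ V A Od 0 := V_anti (Nat.zero_le _) (transl_mem _ _ _)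
    constructor
    · rintro ⟨hg, h0⟩
      refine ⟨(V A Od 0).mul_mem hv hg, ?_⟩
      rw [TG.act_mul, transl_act]
      simp [h0]
    · rintro ⟨hg, h0⟩
      refine ⟨((V A Od 0).mul_mem_cancel_left hv).1 hg, ?_⟩
      rw [TG.act_mul, transl_act] at h0
      simpa using h0
  rw [h1, measure_preimage_mul]

theorem card_mul_FF (ν : Measure (TG A Od)) [ν.IsHaarMeasure] (k : ℕ) :
    (Nat.card (A (2 * k)) : ℝ≥0∞) * ν (FF A k 0) = ν (V A Od 0 : Set (TG A Od)) := by
  haveI := Fintype.ofFinite (A (2 * k))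
  have h1 : (V A Od 0 : Set (TG A Od)) = ⋃ a : A (2 * k), FF A k a := by
    ext g
    rw [mem_iUnion]
    exact ⟨fun hg => ⟨_, hg, rfl⟩, fun ⟨a, ha⟩ => ha.1⟩
  have h2 : Pairwise (Function.onFun Disjoint fun a : A (2 * k) => FF A k a) := by
    intro a b hab
    refine Set.disjoint_left.2 fun g hg hg' => hab ?_
    rw [← hg.2, ← hg'.2]
  rw [h1, measure_iUnion h2 fun a => FF_meas k a, tsum_fintype]
  simp_rw [measure_FF ν k]
  rw [Finset.sum_const, Finset.card_univ, nsmul_eq_mul, Nat.card_eq_fintype_card]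

theorem compl_OO {e : ∀ n, A n} (he : ∀ n, e n ≠ 0) :
    (V A Od 0 : Set (TG A Od)) \ (⋃ k, FF A k 0) ⊆ (OO e)ᶜ := by
  rintro g ⟨hg, hg'⟩ ⟨N, hN⟩
  have h0 : ∀ k, g.act 0 (2 * k) ≠ 0 := fun k h => hg' (mem_iUnion.2 ⟨k, hg, h⟩)
  have h1 : ∀ k, st e k (g.act 0) := by
    intro k
    induction k with
    | zero => simp [st]
    | succ k ih =>
      rw [st_succ]
      have h2 : g.act 0 (2 * k + 1) = 0 := hg _ (Or.inl (odd_mem k)) 0
      rw [h2]
      unfold TT
      rw [show (2 * k + 1) / 2 = k by omega, if_pos ⟨ih, h0 k⟩]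
      exact (he _).symm
  exact hN N le_rfl (h1 N)

/-- **The complement of the product set is not null.** -/
theorem not_nul_compl {e : ∀ n, A n} (he : ∀ n, e n ≠ 0) (hA : ∀ k, 2 ^ (k + 2) ≤ Nat.card (A (2 * k))) :
    ¬ Nul (⊤ : Subgroup (TG A Od)) (OO e)ᶜ := by
  intro h
  let ν : Measure (TG A Od) := Measure.haar
  have hν : ν.IsHaarMeasure := inferInstance
  have h1 : ν (OO e)ᶜ = 0 := nul_top ν hν h
  have h2 : ν ((V A Od 0 : Set (TG A Od)) \ (⋃ k, FF A k 0)) = 0 := measure_mono_null (compl_OO he) h1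
  have hfin : ν (V A Od 0 : Set (TG A Od)) ≠ ∞ := by
    have : (V A Od 0 : Set (TG A Od)) ⊆ U A Od 0 := V_le_U 0 0
    exact ((measure_mono this).trans_lt (U_compact 0).measure_lt_top).ne
  have hpos : ν (V A Od 0 : Set (TG A Od)) ≠ 0 := IsOpen.measure_ne_zero ν (V_isOpen 0) ⟨1, (V A Od 0).one_mem⟩
  set c := ν (V A Od 0 : Set (TG A Od)) with hc
  have h3 : c ≤ ∑' k, ν (FF A k 0) := by
    calc c ≤ ν (((V A Od 0 : Set (TG A Od)) \ (⋃ k, FF A k 0)) ∪ ⋃ k, FF A k 0) := by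
          apply measure_mono
          intro g hg
          by_cases h : g ∈ ⋃ k, FF A k 0
          · exact Or.inr h
          · exact Or.inl ⟨hg, h⟩
      _ ≤ ν ((V A Od 0 : Set (TG A Od)) \ (⋃ k, FF A k 0)) + ν (⋃ k, FF A k 0) := measure_union_le _ _
      _ ≤ 0 + ∑' k, ν (FF A k 0) := add_le_add h2.le (measure_iUnion_le _)
      _ = _ := zero_add _
  have h4 : ∀ k, ν (FF A k 0) ≤ c * 2⁻¹ ^ (k + 2) := by
    intro k
    have h5 := card_mul_FF (A := A) ν k
    rw [← hc] at h5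
    have h6 : (2 : ℝ≥0∞) ^ (k + 2) * ν (FF A k 0) ≤ c := by
      rw [← h5]
      gcongr
      exact_mod_cast hA k
    have h7 : (2 : ℝ≥0∞) ^ (k + 2) ≠ 0 := by simp
    have h8 : (2 : ℝ≥0∞) ^ (k + 2) ≠ ∞ := by simp
    rw [← ENNReal.inv_pow, ← div_eq_mul_inv]
    rw [ENNReal.le_div_iff_mul_le (Or.inl h7) (Or.inl h8), mul_comm]
    exact h6
  have h5 : ∑' k : ℕ, c * 2⁻¹ ^ (k + 2) = c * 2⁻¹ := by
    rw [ENNReal.tsum_mul_left]
    congr 1
    simp_rw [pow_add]
    rw [ENNReal.tsum_mul_right, ENNReal.tsum_geometric, ENNReal.one_sub_inv_two, inv_inv, pow_two, ← mul_assoc,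
      ENNReal.mul_inv_cancel (by simp) (by simp), one_mul]
  have h6 : c ≤ c * 2⁻¹ := h3.trans ((ENNReal.tsum_le_tsum h4).trans h5.le)
  have h7 : c * 2⁻¹ < c := by
    rw [← div_eq_mul_inv]
    exact ENNReal.half_lt_self hpos hfin
  exact absurd h6 (not_le.2 h7)

end Pool.Agent.H663.SA
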