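import Pool.Agent.H663.SA.Defs
import Pool.Agent.H663.SA.Null

/-!
# The counterexample
-/

set_option autoImplicit false
set_option linter.unusedSectionVars false
set_option linter.style.haveILetI false

open Set Filter Topology MeasureTheory
open scoped Pointwise ENNReal

namespace Pool.Agent.H663.SA

/-- the `n`-th prime number -/
noncomputable def pr (n : ℕ) : ℕ := Nat.nth Nat.Prime n

theorem pr_prime (n : ℕ) : (pr n).Prime := Nat.prime_nth_prime n

theorem pr_inj : Function.Injective pr := Nat.nth_injective Nat.infinite_setOfPred_prime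

/-- the coordinate groups -/
abbrev AA (n k : ℕ) : Type := ZMod (pr n ^ (k + 2))

instance (n k : ℕ) : NeZero (pr n ^ (k + 2)) := ⟨pow_ne_zero _ (pr_prime n).ne_zero⟩

instance (n k : ℕ) : Finite (AA n k) := inferInstanceAs (Finite (ZMod (pr n ^ (k + 2))))

/-- the factors of the group -/
abbrev GG (n : ℕ) : Type := TG (AA n) Od

theorem smul_zero' (n k : ℕ) : ∃ e : ℕ, ∀ a : AA n k, (pr n ^ e) • a = 0 := by
  refine ⟨k + 2, fun a => ?_⟩
  rw [nsmul_eq_mul, ZMod.natCast_self, zero_mul]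

theorem allProd_GG : AllProd GG := allProd_of_locP pr_prime pr_inj fun n => locP_TG (smul_zero' n)

/-- the nonzero elements `1` of the coordinate groups -/
noncomputable def ee (n k : ℕ) : AA n k := 1

theorem ee_ne (n k : ℕ) : ee n k ≠ 0 := by
  haveI : Fact (1 < pr n ^ (k + 2)) := ⟨Nat.one_lt_pow (by omega) (pr_prime n).one_lt⟩
  exact one_ne_zero

theorem card_AA (n k : ℕ) : 2 ^ (k + 2) ≤ Nat.card (AA n (2 * k)) := by
  rw [Nat.card_zmod]
  calc 2 ^ (k + 2) ≤ 2 ^ (2 * k + 2) := Nat.pow_le_pow_right (by norm_num) (by omega)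
    _ ≤ pr n ^ (2 * k + 2) := Nat.pow_le_pow_left (pr_prime n).two_le _

/-- the first subgroup -/
noncomputable def KP : Subgroup (∀ n, GG n) := Subgroup.pi univ fun n => KK (ee n)

/-- the second subgroup -/
noncomputable def LP : Subgroup (∀ n, GG n) := Subgroup.pi univ fun n => LL (AA n)

theorem KP_closed : IsClosed (KP : Set (∀ n, GG n)) :=
  isClosed_set_pi fun n _ => KK_closed (ee_ne n)

theorem LP_closed : IsClosed (LP : Set (∀ n, GG n)) :=
  isClosed_set_pi fun n _ => LL_closed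

theorem mem_KPLP (x : ∀ n, GG n) : x ∈ (KP : Set (∀ n, GG n)) * (LP : Set (∀ n, GG n)) ↔ ∀ n, x n ∈ OO (ee n) := by
  constructor
  · rintro ⟨a, ha, b, hb, rfl⟩ n
    rw [← mul_eq_OO]
    exact ⟨a n, ha n (mem_univ n), b n, hb n (mem_univ n), rfl⟩
  · intro h
    have h' : ∀ n, ∃ a ∈ KK (ee n), ∃ b ∈ LL (AA n), a * b = x n := by
      intro n
      have := h n
      rw [← mul_eq_OO] at this
      obtain ⟨a, ha, b, hb, hab⟩ := this
      exact ⟨a, ha, b, hb, hab⟩
    choose a ha b hb hab using h'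
    exact ⟨a, fun n _ => ha n, b, fun n _ => hb n, funext hab⟩

theorem KPLP_mem : (KP : Set (∀ n, GG n)) * (LP : Set (∀ n, GG n)) ∈ E (Γ := GG) ⊤ := by
  by_contra hcon
  have hT : ∀ n, OO (ee n) ⊆ (comp (⊤ : Subgroup (∀ n, GG n)) n : Set (GG n)) := fun n x _ => mem_comp.2 trivial
  obtain ⟨-, h⟩ := (not_mem_E_iff allProd_GG (H := (⊤ : Subgroup (∀ n, GG n))) isClosed_univ mem_KPLP hT).1 hcon
  have h1 : {n | ¬ Nul (comp (⊤ : Subgroup (∀ n, GG n)) n) (OO (ee n))ᶜ} = univ := by
    ext n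
    simp only [mem_ofPred_eq, mem_univ, iff_true]
    exact not_nul_compl (ee_ne n) (card_AA n)
  rw [h1] at h
  exact infinite_univ h

theorem KPLP_comeager : IsMeagre ((KP : Set (∀ n, GG n)) * (LP : Set (∀ n, GG n)))ᶜ := by
  have h1 : (KP : Set (∀ n, GG n)) * (LP : Set (∀ n, GG n)) = ⋂ n, (fun x : ∀ n, GG n => x n) ⁻¹' OO (ee n) := by
    ext x
    rw [mem_KPLP, mem_iInter]
    rfl
  rw [h1, compl_iInter]
  refine isMeagre_iUnion fun n => ?_
  rw [IsMeagre, compl_compl]
  exact residual_of_dense_open (OO_open.preimage (continuous_apply n)) (OO_dense.preimage (isOpenMap_eval n))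

theorem KPLP_not_meager : ¬ MeagerIn (⊤ : Subgroup (∀ n, GG n)) ((KP : Set (∀ n, GG n)) * (LP : Set (∀ n, GG n))) := by
  intro h
  have h1 := IsMeagre.image_val (s := ((⊤ : Subgroup (∀ n, GG n)) : Set (∀ n, GG n))) h
  have h2 : IsMeagre ((KP : Set (∀ n, GG n)) * (LP : Set (∀ n, GG n))) := by
    refine h1.mono ?_
    intro x hx
    exact ⟨⟨x, trivial⟩, hx, rfl⟩
  have h3 := h2.union KPLP_comeager
  rw [union_compl_self] at h3
  exact not_isMeagre_of_isOpen isOpen_univ (univ_nonempty (α := ∀ n, GG n)) h3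

end Pool.Agent.H663.SA
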