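import Mathlib

/-!
# Triangular permutations

`A n` are finite abelian groups and `D` is a set of coordinates. `TG A D` is the group of the permutations `g` of
`∏ n, A n` such that `(g w) n - w n` depends on the coordinates `w i`, `i < n`, only, and such that `g` does not change the
coordinates in `D` with finitely many exceptions. The subgroups `V m` of the elements which change neither the coordinates
in `D` nor the coordinates `n < m` are a basis at `1` of a group topology; it is locally compact, second countable and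
Hausdorff.
-/

set_option autoImplicit false
set_option linter.unusedSectionVars false
set_option linter.style.haveILetI false

open Set Filter Topology
open scoped Pointwise

namespace Pool.Agent.H663.SA

variable {A : ℕ → Type} [∀ n, AddCommGroup (A n)]

/-- `w` and `w'` agree below `n` -/
def Agree (n : ℕ) (w w' : ∀ i, A i) : Prop := ∀ i < n, w i = w' i

theorem Agree.symm {n : ℕ} {w w' : ∀ i, A i} (h : Agree n w w') : Agree n w' w := fun i hi => (h i hi).symm

theorem Agree.mono {n m : ℕ} (hmn : m ≤ n) {w w' : ∀ i, A i} (h : Agree n w w') : Agree m w w' :=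
  fun i hi => h i (hi.trans_le hmn)

/-- triangular functions -/
def IsTri (f : (∀ i, A i) → (∀ i, A i)) : Prop := ∀ n w w', Agree n w w' → f w n - w n = f w' n - w' n

theorem IsTri.agree {f : (∀ i, A i) → (∀ i, A i)} (hf : IsTri f) {n : ℕ} {w w' : ∀ i, A i} (h : Agree n w w') :
    Agree n (f w) (f w') := by
  intro i hi
  have h1 := hf i w w' (h.mono hi.le)
  rw [h i hi] at h1
  exact sub_left_injective h1

theorem IsTri.agree_of {f : (∀ i, A i) → (∀ i, A i)} (hf : IsTri f) {n : ℕ} {w w' : ∀ i, A i}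
    (h : Agree n (f w) (f w')) : Agree n w w' := by
  intro i
  induction i using Nat.strong_induction_on with
  | _ i ih =>
    intro hi
    have h1 := hf i w w' fun j hj => ih j hj (hj.trans hi)
    rw [h i hi] at h1
    exact sub_right_injective h1

theorem IsTri.bijective {f : (∀ i, A i) → (∀ i, A i)} (hf : IsTri f) : Function.Bijective f := by
  constructor
  · intro w w' h
    funext i
    exact hf.agree_of (n := i + 1) (fun j _ => by rw [h]) i (Nat.lt_succ_self i)
  · intro v
    -- iterate `w ↦ w + (v - f w)`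
    let a : ℕ → ∀ i, A i := fun k => (fun w => w + (v - f w))^[k] v
    have ha : ∀ k, a (k + 1) = a k + (v - f (a k)) := fun k => Function.iterate_succ_apply' _ _ _
    have h1 : ∀ k, Agree k (f (a k)) v := by
      intro k
      induction k with
      | zero => intro i hi; exact absurd hi (Nat.not_lt_zero i)
      | succ k ih =>
        have h2 : Agree k (a (k + 1)) (a k) := by
          intro i hi
          rw [ha]
          simp [ih i hi]
        intro i hi
        rcases Nat.lt_succ_iff_lt_or_eq.1 hi with hi | hi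
        · rw [hf.agree h2 i hi, ih i hi]
        · subst hi
          have h3 := hf i _ _ h2
          have h4 : f (a (i + 1)) i = (f (a i) i - a i i) + a (i + 1) i := by rw [← h3]; abel
          rw [h4, ha]
          simp only [Pi.add_apply, Pi.sub_apply]
          abel
    have h2 : ∀ k j, Agree k (a (k + j)) (a k) := by
      intro k j
      refine hf.agree_of fun i hi => ?_
      rw [h1 (k + j) i (by omega), h1 k i hi]
    refine ⟨fun i => a (i + 1) i, ?_⟩
    funext i
    have h3 : Agree (i + 1) (fun j => a (j + 1) j) (a (i + 1)) := by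
      intro j hj
      have := h2 (j + 1) (i - j) j (Nat.lt_succ_self j)
      rw [show j + 1 + (i - j) = i + 1 by omega] at this
      exact this.symm
    rw [hf.agree h3 i (Nat.lt_succ_self i), h1 (i + 1) i (Nat.lt_succ_self i)]

theorem IsTri.comp {f g : (∀ i, A i) → (∀ i, A i)} (hf : IsTri f) (hg : IsTri g) : IsTri (f ∘ g) := by
  intro n w w' h
  have h1 := hf n _ _ (hg.agree h)
  have h2 := hg n _ _ h
  have : f (g w) n - w n = (f (g w) n - g w n) + (g w n - w n) := by abel
  change f (g w) n - w n = f (g w') n - w' n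
  rw [this, h1, h2]
  abel

theorem IsTri.symm {g : Equiv.Perm (∀ i, A i)} (hg : IsTri g) : IsTri g.symm := by
  intro n w w' h
  have h1 : Agree n (g.symm w) (g.symm w') := hg.agree_of (by simpa using h)
  have h2 := hg n _ _ h1
  rw [g.apply_symm_apply, g.apply_symm_apply] at h2
  rw [← neg_sub, h2, neg_sub]

variable (A)

/-- the group, as a subgroup of the group of permutations -/
def triSubgroup (D : Set ℕ) : Subgroup (Equiv.Perm (∀ i, A i)) where
  carrier := {g | IsTri g ∧ ∃ N, ∀ n, N ≤ n → n ∈ D → ∀ w, g w n = w n}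
  one_mem' := ⟨fun n w w' _ => by simp, 0, fun n _ _ w => rfl⟩
  mul_mem' := by
    rintro g h ⟨hg, N, hN⟩ ⟨hh, M, hM⟩
    refine ⟨hg.comp hh, max N M, fun n hn hD w => ?_⟩
    change g (h w) n = w n
    rw [hN n (le_trans (le_max_left _ _) hn) hD, hM n (le_trans (le_max_right _ _) hn) hD]
  inv_mem' := by
    rintro g ⟨hg, N, hN⟩
    refine ⟨hg.symm, N, fun n hn hD w => ?_⟩
    have h1 : g (g⁻¹ w) n = g⁻¹ w n := hN n hn hD (g⁻¹ w)
    have h2 : g (g⁻¹ w) = w := g.apply_symm_apply w
    rw [h2] at h1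
    exact h1.symm

/-- the group `TG A D` -/
def TG (D : Set ℕ) : Type := triSubgroup A D

variable {A} {D : Set ℕ}

instance : Group (TG A D) := inferInstanceAs (Group (triSubgroup A D))

/-- the action on sequences -/
def TG.act (g : TG A D) : Equiv.Perm (∀ i, A i) := g.1

theorem TG.act_mul (g h : TG A D) (w : ∀ i, A i) : (g * h).act w = g.act (h.act w) := rfl
theorem TG.act_one (w : ∀ i, A i) : (1 : TG A D).act w = w := rfl
theorem TG.act_inv_act (g : TG A D) (w : ∀ i, A i) : (g⁻¹).act (g.act w) = w := g.act.symm_apply_apply w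
theorem TG.act_act_inv (g : TG A D) (w : ∀ i, A i) : g.act ((g⁻¹).act w) = w := g.act.apply_symm_apply w
theorem TG.tri (g : TG A D) : IsTri g.act := g.2.1
theorem TG.ext' {g h : TG A D} (H : ∀ w, g.act w = h.act w) : g = h := Subtype.ext (Equiv.ext H)
theorem TG.agree (g : TG A D) {n : ℕ} {w w' : ∀ i, A i} (h : Agree n w w') : Agree n (g.act w) (g.act w') :=
  g.tri.agree h

/-- construct an element from a triangular function -/
noncomputable def TG.mk (f : (∀ i, A i) → (∀ i, A i)) (hf : IsTri f) (N : ℕ)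
    (hN : ∀ n, N ≤ n → n ∈ D → ∀ w, f w n = w n) : TG A D :=
  ⟨Equiv.ofBijective f hf.bijective, hf, N, hN⟩

theorem TG.mk_act (f : (∀ i, A i) → (∀ i, A i)) (hf : IsTri f) (N : ℕ)
    (hN : ∀ n, N ≤ n → n ∈ D → ∀ w, f w n = w n) (w : ∀ i, A i) : (TG.mk f hf N hN : TG A D).act w = f w := rfl

/-- the subgroup of the elements that fix the coordinates in `D ∩ [N, ∞)` -/
def U (A : ℕ → Type) [∀ n, AddCommGroup (A n)] (D : Set ℕ) (N : ℕ) : Subgroup (TG A D) where
  carrier := {g | ∀ n, N ≤ n → n ∈ D → ∀ w, g.act w n = w n}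
  one_mem' := fun n _ _ w => rfl
  mul_mem' := fun {g h} hg hh n hn hD w => by
    rw [TG.act_mul, hg n hn hD, hh n hn hD]
  inv_mem' := fun {g} hg n hn hD w => by
    have := hg n hn hD ((g⁻¹).act w)
    rw [TG.act_act_inv] at this
    exact this.symm

/-- the subgroup of the elements that fix the coordinates in `D` and the coordinates below `m` -/
def V (A : ℕ → Type) [∀ n, AddCommGroup (A n)] (D : Set ℕ) (m : ℕ) : Subgroup (TG A D) where
  carrier := {g | ∀ n, (n ∈ D ∨ n < m) → ∀ w, g.act w n = w n}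
  one_mem' := fun n _ w => rfl
  mul_mem' := fun {g h} hg hh n hn w => by
    rw [TG.act_mul, hg n hn, hh n hn]
  inv_mem' := fun {g} hg n hn w => by
    have := hg n hn ((g⁻¹).act w)
    rw [TG.act_act_inv] at this
    exact this.symm

theorem mem_U {g : TG A D} {N : ℕ} : g ∈ U A D N ↔ ∀ n, N ≤ n → n ∈ D → ∀ w, g.act w n = w n := Iff.rfl
theorem mem_V {g : TG A D} {m : ℕ} : g ∈ V A D m ↔ ∀ n, (n ∈ D ∨ n < m) → ∀ w, g.act w n = w n := Iff.rfl

theorem exists_mem_U (g : TG A D) : ∃ N, g ∈ U A D N := g.2.2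

theorem U_mono {N M : ℕ} (h : N ≤ M) : U A D N ≤ U A D M := fun _ hg n hn => hg n (h.trans hn)

theorem V_anti {N M : ℕ} (h : N ≤ M) : V A D M ≤ V A D N := fun _ hg n hn => hg n (hn.imp id fun h' => h'.trans_le h)

theorem V_le_U (m N : ℕ) : V A D m ≤ U A D N := fun _ hg n _ hD => hg n (Or.inl hD)

theorem V_agree {g : TG A D} {m : ℕ} (hg : g ∈ V A D m) (w : ∀ i, A i) : Agree m (g.act w) w :=
  fun i hi => hg i (Or.inr hi) w

theorem conj_V {g v : TG A D} {N m : ℕ} (hg : g ∈ U A D N) (hm : N ≤ m) (hv : v ∈ V A D m) : g * v * g⁻¹ ∈ V A D m := by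
  intro n hn w
  rw [TG.act_mul, TG.act_mul]
  by_cases hnm : n < m
  · have h1 : Agree m (g.act (v.act ((g⁻¹).act w))) (g.act ((g⁻¹).act w)) := g.agree (V_agree hv _)
    rw [h1 n hnm, TG.act_act_inv]
  · have hD : n ∈ D := hn.resolve_right hnm
    have hg' := (U A D N).inv_mem hg
    rw [hg n (by omega) hD, hv n (Or.inl hD), hg' n (by omega) hD]

/-- the filter basis -/
@[instance_reducible]
def basis (A : ℕ → Type) [∀ n, AddCommGroup (A n)] (D : Set ℕ) : GroupFilterBasis (TG A D) where
  sets := range fun m => (V A D m : Set (TG A D))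
  nonempty := ⟨_, 0, rfl⟩
  inter_sets := by
    rintro _ _ ⟨m, rfl⟩ ⟨n, rfl⟩
    refine ⟨_, ⟨max m n, rfl⟩, subset_inter ?_ ?_⟩
    · exact V_anti (le_max_left _ _)
    · exact V_anti (le_max_right _ _)
  one' := by
    rintro _ ⟨m, rfl⟩
    exact (V A D m).one_mem
  mul' := by
    rintro _ ⟨m, rfl⟩
    refine ⟨_, ⟨m, rfl⟩, ?_⟩
    rintro _ ⟨a, ha, b, hb, rfl⟩
    exact (V A D m).mul_mem ha hb
  inv' := by
    rintro _ ⟨m, rfl⟩
    exact ⟨_, ⟨m, rfl⟩, fun x hx => (V A D m).inv_mem hx⟩
  conj' := by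
    rintro g _ ⟨m, rfl⟩
    obtain ⟨N, hN⟩ := exists_mem_U g
    exact ⟨_, ⟨max N m, rfl⟩, fun v hv => V_anti (le_max_right N m) (conj_V hN (le_max_left N m) hv)⟩

instance : TopologicalSpace (TG A D) := (basis A D).topology
instance : IsTopologicalGroup (TG A D) := (basis A D).isTopologicalGroup

theorem nhds_basis (g : TG A D) : (𝓝 g).HasBasis (fun _ : ℕ => True) fun m => (fun v => g * v) '' (V A D m : Set (TG A D)) := by
  have h := (basis A D).nhds_hasBasis g
  refine ⟨fun t => ?_⟩
  rw [h.mem_iff]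
  constructor
  · rintro ⟨_, ⟨m, rfl⟩, h⟩
    exact ⟨m, trivial, h⟩
  · rintro ⟨m, -, h⟩
    exact ⟨_, ⟨m, rfl⟩, h⟩

theorem mem_nhds_iff' {g : TG A D} {s : Set (TG A D)} : s ∈ 𝓝 g ↔ ∃ m, ∀ v ∈ V A D m, g * v ∈ s := by
  rw [(nhds_basis g).mem_iff]
  constructor
  · rintro ⟨m, -, h⟩
    exact ⟨m, fun v hv => h ⟨v, hv, rfl⟩⟩
  · rintro ⟨m, h⟩
    refine ⟨m, trivial, ?_⟩
    rintro _ ⟨v, hv, rfl⟩
    exact h v hv

theorem isOpen_iff' {s : Set (TG A D)} : IsOpen s ↔ ∀ g ∈ s, ∃ m, ∀ v ∈ V A D m, g * v ∈ s := by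
  rw [isOpen_iff_mem_nhds]
  simp_rw [mem_nhds_iff']

theorem V_mem_nhds (m : ℕ) : (V A D m : Set (TG A D)) ∈ 𝓝 (1 : TG A D) :=
  mem_nhds_iff'.2 ⟨m, fun v hv => by simpa using hv⟩

theorem V_isOpen (m : ℕ) : IsOpen (V A D m : Set (TG A D)) := (V A D m).isOpen_of_mem_nhds (V_mem_nhds m)

instance : T2Space (TG A D) := by
  apply IsTopologicalGroup.t2Space_of_one_sep
  intro g hg
  by_contra hcon
  push Not at hcon
  apply hg
  refine TG.ext' fun w => ?_
  funext n
  exact hcon _ (V_mem_nhds (n + 1)) n (Or.inr (Nat.lt_succ_self n)) w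

section Finite

variable [∀ n, Finite (A n)]

theorem finite_rep (m : ℕ) : {w : ∀ i, A i | ∀ i, m ≤ i → w i = 0}.Finite := by
  classical
  have : Finite (∀ i : Fin m, A i) := inferInstance
  refine Set.Finite.of_finite_image (f := fun w (i : Fin m) => w i) (Set.toFinite _) ?_
  intro w hw w' hw' h
  funext i
  by_cases hi : i < m
  · exact congr_fun h ⟨i, hi⟩
  · rw [hw i (not_lt.1 hi), hw' i (not_lt.1 hi)]

theorem U_compact (N : ℕ) : IsCompact (U A D N : Set (TG A D)) := by
  classical
  rw [isCompact_iff_ultrafilter_le_nhds']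
  intro f hf
  -- the limit of the values
  have h1 : ∀ (w : ∀ i, A i) (n : ℕ), ∃ a : A n, ∀ᶠ g in (f : Filter (TG A D)), g.act w n = a := by
    intro w n
    obtain ⟨a, ha⟩ := (f.map fun g : TG A D => g.act w n).eq_pure_of_finite
    refine ⟨a, ?_⟩
    have h2 : ({a} : Set (A n)) ∈ f.map fun g : TG A D => g.act w n := by
      rw [ha]
      exact mem_pure.2 rfl
    exact h2
  choose F hF using h1
  have hfU : ∀ᶠ g in (f : Filter (TG A D)), g ∈ U A D N := hf
  have hFt : IsTri F := by
    intro n w w' h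
    obtain ⟨g, hg1, hg2⟩ := ((hF w n).and (hF w' n)).exists
    rw [← hg1, ← hg2]
    exact g.tri n w w' h
  have hFU : ∀ n, N ≤ n → n ∈ D → ∀ w, F w n = w n := by
    intro n hn hD w
    obtain ⟨g, hg1, hg2⟩ := ((hF w n).and hfU).exists
    rw [← hg1]
    exact hg2 n hn hD w
  refine ⟨TG.mk F hFt N hFU, fun n hn hD w => hFU n hn hD w, ?_⟩
  set x : TG A D := TG.mk F hFt N hFU with hx
  intro s hs
  obtain ⟨m, hm⟩ := mem_nhds_iff'.1 hs
  have h2 : ∀ᶠ g in (f : Filter (TG A D)), ∀ w ∈ {w : ∀ i, A i | ∀ i, max m N ≤ i → w i = 0},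
      ∀ n ∈ Set.Iio (max m N), g.act w n = F w n :=
    (finite_rep (max m N)).eventually_all.2 fun w _ => (Set.finite_Iio _).eventually_all.2 fun n _ => hF w n
  filter_upwards [h2, hfU] with g hg hgU
  have h3 : ∀ w, Agree (max m N) (g.act w) (x.act w) := by
    intro w n hn
    let w' : ∀ i, A i := fun i => if i < max m N then w i else 0
    have hw' : Agree (max m N) w w' := fun i hi => by simp only [w', if_pos hi]
    have h4 := hg w' (fun i hi => if_neg (not_lt.2 hi)) n hn
    have h5 := g.tri n w w' (hw'.mono hn.le)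
    have h6 := x.tri n w w' (hw'.mono hn.le)
    rw [h4] at h5
    have h7 : x.act w' n = F w' n := rfl
    rw [h7, ← h5] at h6
    exact (sub_left_injective h6).symm
  have h4 : x⁻¹ * g ∈ V A D (max m N) := by
    intro n hn w
    by_cases hnm : n < max m N
    · rw [TG.act_mul]
      have h5 := (x⁻¹).agree (h3 w)
      rw [h5 n hnm, TG.act_inv_act]
    · have hD := hn.resolve_right hnm
      have hxU : x ∈ U A D N := fun n hn hD w => hFU n hn hD w
      exact (U A D N).mul_mem ((U A D N).inv_mem hxU) hgU n (by omega) hD w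
  have h5 := hm _ (V_anti (le_max_left m N) h4)
  simpa using h5

instance : LocallyCompactSpace (TG A D) := by
  refine (U_compact (A := A) (D := D) 0).locallyCompactSpace_of_mem_nhds_of_group (x := 1) ?_
  exact mem_of_superset (V_mem_nhds 0) (V_le_U 0 0)

instance : SigmaCompactSpace (TG A D) := by
  refine ⟨⟨fun N => (U A D N : Set (TG A D)), fun N => U_compact N, ?_⟩⟩
  ext g
  simp only [mem_iUnion, mem_univ, iff_true]
  exact exists_mem_U g

theorem polish_aux : SecondCountableTopology (TG A D) ∧ TopologicalSpace.IsCompletelyMetrizableSpace (TG A D) := by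
  letI : UniformSpace (TG A D) := IsTopologicalGroup.rightUniformSpace (TG A D)
  haveI : IsRightUniformGroup (TG A D) := { uniformity_eq := rfl }
  haveI : (𝓝 (1 : TG A D)).IsCountablyGenerated := (nhds_basis (1 : TG A D)).isCountablyGenerated
  haveI : (uniformity (TG A D)).IsCountablyGenerated := by
    rw [uniformity_eq_comap_nhds_one']
    exact Filter.comap.isCountablyGenerated _ _
  haveI : CompleteSpace (TG A D) := IsRightUniformGroup.completeSpace_of_weaklyLocallyCompactSpace
  refine ⟨?_, inferInstance⟩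
  letI := UniformSpace.pseudoMetricSpace (TG A D)
  exact EMetric.secondCountable_of_sigmaCompact (TG A D)

instance : SecondCountableTopology (TG A D) := polish_aux.1

instance : PolishSpace (TG A D) :=
  haveI := (polish_aux (A := A) (D := D)).2
  inferInstance

end Finite

end Pool.Agent.H663.SA
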